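import Pool.Agent.Helper61.IE.Defs3

/-!
# Property (T) for factors in terms of bounded vectors
-/

namespace Helper85.IE

open Helper61.IE

/-- The vector `ξ` is bounded with constant one for the unitary representation `α` with respect to
the character `χ`: for `x = ∑ a_i u_{x_i}` one has `‖x ξ‖² ≤ τ(x* x)`. -/
def Subtracial {G : Type} [Group G] {H : Type} [NormedAddCommGroup H] [InnerProductSpace ℂ H]
    (χ : G → ℂ) (α : G → H → H) (ξ : H) : Prop :=
  ∀ (m : ℕ) (a : Fin m → ℂ) (x : Fin m → G),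
    ‖∑ i, a i • α (x i) ξ‖ ^ 2 ≤ (∑ i, ∑ k, star (a i) * a k * χ ((x i)⁻¹ * x k)).re

/-- Property (T) of the factor `N = π_χ(G)''`: for every `δ > 0` there are a finite set `S ⊆ G`
and a constant `K` such that in every Hilbert `N`-`N`-bimodule every left and right subtracial
vector `ξ` is up to `K ∑_S ‖u_s ξ u_s* - ξ‖² + δ` close (in the square of the norm) to a central
vector.  Hilbert `N`-`N`-bimodules are given by commuting unitary representations `α` (left
multiplication by `u_g`) and `β` (right multiplication by `u_g⁻¹`) of `G` that extend normally to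
`N` and its opposite algebra, that is, whose `χ`-bounded (`conj χ`-bounded) vectors are dense. -/
def PropT {G : Type} [Group G] (χ : G → ℂ) : Prop :=
  ∀ δ : ℝ, 0 < δ → ∃ (S : Finset G) (K : ℝ),
    ∀ (H : Type) [NormedAddCommGroup H] [InnerProductSpace ℂ H] [CompleteSpace H]
      (α β : G → H → H), URep α → URep β → (∀ g h ξ, α g (β h ξ) = β h (α g ξ)) →
      Dense {ξ | ChiBd χ α ξ} → Dense {ξ | ChiBd (fun g => star (χ g)) β ξ} →
      ∀ ξ : H, Subtracial χ α ξ → Subtracial (fun g => star (χ g)) β ξ →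
        ∃ η : H, (∀ g, α g (β g η) = η) ∧
          ‖ξ - η‖ ^ 2 ≤ K * ∑ s ∈ S, ‖α s (β s ξ) - ξ‖ ^ 2 + δ

/-- Every vector decomposes into a fixed vector and a vector orthogonal to the fixed vectors. -/
theorem exists_decomp {G : Type} [Group G] {H : Type} [NormedAddCommGroup H]
    [InnerProductSpace ℂ H] [CompleteSpace H] {γ : G → H → H} (hγ : URep γ) (ξ : H) :
    ∃ p ζ : H, (∀ g, γ g p = p) ∧ (∀ η : H, (∀ g, γ g η = η) → inner ℂ η ζ = 0) ∧
      ξ = p + ζ := by
  have hz : ∀ g, γ g 0 = 0 := fun g => by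
    have := hγ.norm g 0
    rwa [norm_zero, norm_eq_zero] at this
  have hsub : ∀ g x y, γ g (x - y) = γ g x - γ g y := by
    intro g x y
    have h1 := hγ.smul g (-1) y
    rw [neg_one_smul, neg_one_smul] at h1
    rw [sub_eq_add_neg, hγ.add, h1, ← sub_eq_add_neg]
  have hcont : ∀ g, Continuous (γ g) := fun g => by
    refine Isometry.continuous (Isometry.of_dist_eq fun x y => ?_)
    rw [dist_eq_norm, dist_eq_norm, ← hsub, hγ.norm]
  let K : Submodule ℂ H :=
    { carrier := {η | ∀ g, γ g η = η}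
      add_mem' := fun {x y} hx hy g => by rw [hγ.add, hx g, hy g]
      zero_mem' := fun g => hz g
      smul_mem' := fun r x hx g => by rw [hγ.smul, hx g] }
  have hKc : IsClosed (K : Set H) := by
    have h1 : (K : Set H) = ⋂ g, {η | γ g η = η} := by
      ext η
      rw [Set.mem_iInter]
      exact Iff.rfl
    rw [h1]
    exact isClosed_iInter fun g => isClosed_eq (hcont g) continuous_id
  have : CompleteSpace K := hKc.completeSpace_coe
  obtain ⟨p, hp, ζ, hζ, hξ⟩ := K.exists_add_mem_mem_orthogonal ξ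
  exact ⟨p, ζ, hp, fun η hη => K.inner_right_of_mem_orthogonal (show η ∈ K from hη) hζ, hξ⟩

theorem urep_comp {G : Type} [Group G] {H : Type} [NormedAddCommGroup H] [InnerProductSpace ℂ H]
    {α β : G → H → H} (hα : URep α) (hβ : URep β)
    (hab : ∀ g h ξ, α g (β h ξ) = β h (α g ξ)) : URep fun g ξ => α g (β g ξ) where
  one ξ := by rw [hβ.one, hα.one]
  mul g h ξ := by rw [hβ.mul, hα.mul, hab h g]
  add g ξ η := by rw [hβ.add, hα.add]
  smul g c ξ := by rw [hβ.smul, hα.smul]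
  norm g ξ := by rw [hα.norm, hβ.norm]

/-- The gap for all vectors implies property (T). -/
theorem BimodT.propT {G : Type} [Group G] {χ : G → ℂ} (h : BimodT χ) : PropT χ := by
  obtain ⟨S, c, hc, h⟩ := h
  intro δ hδ
  refine ⟨S, 1 / c, ?_⟩
  intro H _ _ _ α β hα hβ hab hda hdb ξ _ _
  have hγ := urep_comp hα hβ hab
  obtain ⟨p, ζ, hp, hζ, rfl⟩ := exists_decomp hγ ξ
  refine ⟨p, hp, ?_⟩
  have h1 : c * ‖ζ‖ ^ 2 ≤ ∑ s ∈ S, ‖α s (β s ζ) - ζ‖ ^ 2 := h H α β hα hβ hab hda hdb ζ hζ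
  have h2 : ∀ s, ‖α s (β s (p + ζ)) - (p + ζ)‖ ^ 2 = ‖α s (β s ζ) - ζ‖ ^ 2 := by
    intro s
    have h3 : α s (β s (p + ζ)) = α s (β s p) + α s (β s ζ) := hγ.add s p ζ
    have h4 : α s (β s p) = p := hp s
    rw [h3, h4]
    congr 2
    abel
  simp only [h2]
  have h5 : ‖ζ‖ ^ 2 ≤ 1 / c * ∑ s ∈ S, ‖α s (β s ζ) - ζ‖ ^ 2 := by
    rw [one_div, inv_mul_eq_div, le_div_iff₀ hc]
    linarith
  have h6 : p + ζ - p = ζ := by abel
  rw [h6]
  linarith

theorem GroupT.propT {G : Type} [Group G] (h : GroupT G) (χ : G → ℂ) : PropT χ := by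
  obtain ⟨S, c, hc, h⟩ := h
  refine BimodT.propT ⟨S, c, hc, ?_⟩
  intro H _ _ _ α β hα hβ hab _ _
  exact h H _ (urep_comp hα hβ hab)

end Helper85.IE
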