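import Mathlib

/-!
# From compactly supported to Schwartz test functions (helper85, MP_3dd6d4_an)
-/

set_option autoImplicit false
set_option maxSynthPendingDepth 3

open MeasureTheory Complex Filter Topology
open scoped ENNReal NNReal ComplexConjugate ContDiff

noncomputable section

namespace Helper85.IE

/-- `∂φ` -/
def dz (φ : ℂ → ℂ) (z : ℂ) : ℂ := (fderiv ℝ φ z 1 - I * fderiv ℝ φ z I) / 2

/-- `∂̄φ` -/
def dzb (φ : ℂ → ℂ) (z : ℂ) : ℂ := (fderiv ℝ φ z 1 + I * fderiv ℝ φ z I) / 2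

/-- the inequality `‖∂φ‖_p ≤ C ‖∂̄φ‖_p` for smooth compactly supported functions -/
def Hyp (p C : ℝ) : Prop := ∀ φ : ℂ → ℂ, ContDiff ℝ ∞ φ → HasCompactSupport φ →
  eLpNorm (dz φ) (ENNReal.ofReal p) volume ≤
    ENNReal.ofReal C * eLpNorm (dzb φ) (ENNReal.ofReal p) volume

/-- the cutoff -/
def bmp0 : ContDiffBump (0 : ℂ) where
  rIn := 1
  rOut := 2
  rIn_pos := by norm_num
  rIn_lt_rOut := by norm_num

/-- the cutoff at scale `n+1` -/
def ct (n : ℕ) (z : ℂ) : ℝ := bmp0 ((((n : ℝ) + 1)⁻¹) • z)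

theorem ct_smooth (n : ℕ) : ContDiff ℝ ∞ (ct n) :=
  bmp0.contDiff.comp (contDiff_const_smul _)

theorem ct_supp (n : ℕ) : HasCompactSupport (ct n) := by
  have hn : (0 : ℝ) < (n : ℝ) + 1 := by positivity
  refine HasCompactSupport.intro (isCompact_closedBall (0 : ℂ) (2 * ((n : ℝ) + 1))) ?_
  intro z hz
  refine bmp0.zero_of_le_dist ?_
  rw [dist_zero_right, norm_smul, norm_inv, Real.norm_eq_abs, abs_of_pos hn]
  rw [Metric.mem_closedBall, dist_zero_right, not_le] at hz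
  show (2 : ℝ) ≤ _
  rw [← div_eq_inv_mul, le_div_iff₀ hn]
  exact hz.le

theorem ct_le (n : ℕ) (z : ℂ) : |ct n z| ≤ 1 := by
  have h0 : 0 ≤ ct n z := bmp0.nonneg
  rw [abs_of_nonneg h0]
  exact bmp0.le_one

theorem ct_one (n : ℕ) (z : ℂ) (h : ‖z‖ ≤ (n : ℝ) + 1) : ct n z = 1 := by
  have hn : (0 : ℝ) < (n : ℝ) + 1 := by positivity
  refine bmp0.one_of_mem_closedBall ?_
  rw [Metric.mem_closedBall, dist_zero_right, norm_smul, norm_inv, Real.norm_eq_abs, abs_of_pos hn]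
  show _ ≤ (1 : ℝ)
  rw [← div_eq_inv_mul, div_le_one hn]
  exact h

theorem bmp0_fderiv : ∃ K : ℝ, 0 ≤ K ∧ ∀ z : ℂ, ‖fderiv ℝ (fun z : ℂ => bmp0 z) z‖ ≤ K := by
  have h1 : ContDiff ℝ 1 (fun z : ℂ => bmp0 z) := bmp0.contDiff
  have h2 : Continuous (fderiv ℝ (fun z : ℂ => bmp0 z)) := h1.continuous_fderiv one_ne_zero
  have h3 : HasCompactSupport (fderiv ℝ (fun z : ℂ => bmp0 z)) := bmp0.hasCompactSupport.fderiv ℝ
  obtain ⟨K, hK⟩ := h3.exists_bound_of_continuous h2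
  exact ⟨K, le_trans (norm_nonneg _) (hK 0), hK⟩

theorem ct_fderiv : ∃ K : ℝ, 0 ≤ K ∧ ∀ (n : ℕ) (z : ℂ), ‖fderiv ℝ (ct n) z‖ ≤ K * ((n : ℝ) + 1)⁻¹ := by
  obtain ⟨K, h0, hK⟩ := bmp0_fderiv
  refine ⟨K, h0, fun n z => ?_⟩
  have hn : (0 : ℝ) < (n : ℝ) + 1 := by positivity
  have h1 : HasFDerivAt (fun z : ℂ => bmp0 z)
      (fderiv ℝ (fun z : ℂ => bmp0 z) ((((n : ℝ) + 1)⁻¹) • z)) ((((n : ℝ) + 1)⁻¹) • z) :=
    ((bmp0.contDiff (n := 1)).differentiable one_ne_zero _).hasFDerivAt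
  have h2 : HasFDerivAt (fun z : ℂ => (((n : ℝ) + 1)⁻¹) • z)
      ((((n : ℝ) + 1)⁻¹) • ContinuousLinearMap.id ℝ ℂ) z :=
    ((((n : ℝ) + 1)⁻¹) • ContinuousLinearMap.id ℝ ℂ).hasFDerivAt
  have h3 : HasFDerivAt (ct n) ((fderiv ℝ (fun z : ℂ => bmp0 z) ((((n : ℝ) + 1)⁻¹) • z)).comp
      ((((n : ℝ) + 1)⁻¹) • ContinuousLinearMap.id ℝ ℂ)) z := h1.comp z h2
  rw [h3.fderiv]
  refine le_trans (ContinuousLinearMap.opNorm_comp_le _ _) ?_
  refine mul_le_mul (hK _) ?_ (norm_nonneg _) h0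
  rw [norm_smul, norm_inv, Real.norm_eq_abs, abs_of_pos hn]
  refine le_trans (mul_le_mul_of_nonneg_left (ContinuousLinearMap.norm_id_le) (by positivity)) ?_
  rw [mul_one]

theorem fderiv_cut (n : ℕ) (φ : ℂ → ℂ) (hφ : ContDiff ℝ ∞ φ) (z v : ℂ) :
    fderiv ℝ (fun z => ct n z • φ z) z v = ct n z • fderiv ℝ φ z v + fderiv ℝ (ct n) z v • φ z := by
  have h1 : DifferentiableAt ℝ (ct n) z := (ct_smooth n).differentiable (by simp) z
  have h2 : DifferentiableAt ℝ φ z := hφ.differentiable (by simp) z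
  have h3 := (h1.hasFDerivAt.smul h2.hasFDerivAt).fderiv
  have h4 : fderiv ℝ (fun z => ct n z • φ z) z = ct n z • fderiv ℝ φ z +
      (fderiv ℝ (ct n) z).smulRight (φ z) := h3
  rw [h4]
  simp

theorem dz_cut (n : ℕ) (φ : ℂ → ℂ) (hφ : ContDiff ℝ ∞ φ) (z : ℂ) :
    dz (fun z => ct n z • φ z) z = (ct n z : ℂ) * dz φ z +
      (((fderiv ℝ (ct n) z 1 : ℝ) : ℂ) - I * ((fderiv ℝ (ct n) z I : ℝ) : ℂ)) / 2 * φ z := by
  rw [dz, dz, fderiv_cut n φ hφ, fderiv_cut n φ hφ]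
  simp only [Complex.real_smul]
  ring

theorem dzb_cut (n : ℕ) (φ : ℂ → ℂ) (hφ : ContDiff ℝ ∞ φ) (z : ℂ) :
    dzb (fun z => ct n z • φ z) z = (ct n z : ℂ) * dzb φ z +
      (((fderiv ℝ (ct n) z 1 : ℝ) : ℂ) + I * ((fderiv ℝ (ct n) z I : ℝ) : ℂ)) / 2 * φ z := by
  rw [dzb, dzb, fderiv_cut n φ hφ, fderiv_cut n φ hφ]
  simp only [Complex.real_smul]
  ring

theorem coef_le (n : ℕ) (K : ℝ) (hK : ∀ (n : ℕ) (z : ℂ), ‖fderiv ℝ (ct n) z‖ ≤ K * ((n : ℝ) + 1)⁻¹)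
    (z : ℂ) (e : ℂ) (he : ‖e‖ = 1) :
    ‖(((fderiv ℝ (ct n) z 1 : ℝ) : ℂ) + e * ((fderiv ℝ (ct n) z I : ℝ) : ℂ)) / 2‖ ≤
      K * ((n : ℝ) + 1)⁻¹ := by
  have h1 : ‖((fderiv ℝ (ct n) z 1 : ℝ) : ℂ)‖ ≤ K * ((n : ℝ) + 1)⁻¹ := by
    rw [Complex.norm_real]
    have := (fderiv ℝ (ct n) z).le_opNorm 1
    rw [norm_one, mul_one] at this
    exact this.trans (hK n z)
  have h2 : ‖e * ((fderiv ℝ (ct n) z I : ℝ) : ℂ)‖ ≤ K * ((n : ℝ) + 1)⁻¹ := by
    rw [norm_mul, he, one_mul, Complex.norm_real]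
    have := (fderiv ℝ (ct n) z).le_opNorm I
    rw [Complex.norm_I, mul_one] at this
    exact this.trans (hK n z)
  rw [norm_div, Complex.norm_two]
  have h3 := norm_add_le ((fderiv ℝ (ct n) z 1 : ℝ) : ℂ) (e * ((fderiv ℝ (ct n) z I : ℝ) : ℂ))
  linarith

theorem dz_cont (φ : ℂ → ℂ) (hφ : ContDiff ℝ ∞ φ) : Continuous (dz φ) := by
  have h := hφ.continuous_fderiv (by simp)
  unfold dz
  fun_prop

theorem dzb_cont (φ : ℂ → ℂ) (hφ : ContDiff ℝ ∞ φ) : Continuous (dzb φ) := by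
  have h := hφ.continuous_fderiv (by simp)
  unfold dzb
  fun_prop

/-- the inequality extends to smooth functions in `L^p` -/
theorem cut (p C : ℝ) (hp : 1 ≤ p) (h : Hyp p C) (φ : ℂ → ℂ) (hφ : ContDiff ℝ ∞ φ)
    (hL : eLpNorm φ (ENNReal.ofReal p) volume ≠ ⊤) :
    eLpNorm (dz φ) (ENNReal.ofReal p) volume ≤
      ENNReal.ofReal C * eLpNorm (dzb φ) (ENNReal.ofReal p) volume := by
  obtain ⟨K, h0, hK⟩ := ct_fderiv
  have hp1 : (1 : ℝ≥0∞) ≤ ENNReal.ofReal p := by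
    rw [← ENNReal.ofReal_one]
    exact ENNReal.ofReal_le_ofReal hp
  have hsm : ∀ n, ContDiff ℝ ∞ (fun z => ct n z • φ z) := fun n => (ct_smooth n).smul hφ
  have hcp : ∀ n, HasCompactSupport (fun z => ct n z • φ z) := fun n => (ct_supp n).smul_right
  -- upper bound
  have hup : ∀ n : ℕ, eLpNorm (dzb (fun z => ct n z • φ z)) (ENNReal.ofReal p) volume ≤
      eLpNorm (dzb φ) (ENNReal.ofReal p) volume +
        ENNReal.ofReal (K * ((n : ℝ) + 1)⁻¹) * eLpNorm φ (ENNReal.ofReal p) volume := by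
    intro n
    have e1 : dzb (fun z => ct n z • φ z) = (fun z => (ct n z : ℂ) * dzb φ z) +
      (fun z => (((fderiv ℝ (ct n) z 1 : ℝ) : ℂ) + I * ((fderiv ℝ (ct n) z I : ℝ) : ℂ)) / 2 * φ z) := by
      funext z
      exact dzb_cut n φ hφ z
    have hc1 : Continuous (fun z => (ct n z : ℂ) * dzb φ z) :=
      (Complex.continuous_ofReal.comp (ct_smooth n).continuous).mul (dzb_cont φ hφ)
    have hc2 : Continuous (fun z => (((fderiv ℝ (ct n) z 1 : ℝ) : ℂ) +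
        I * ((fderiv ℝ (ct n) z I : ℝ) : ℂ)) / 2 * φ z) := by
      have h5 := (ct_smooth n).continuous_fderiv (by simp)
      have h6 := hφ.continuous
      fun_prop
    rw [e1]
    refine (eLpNorm_add_le hc1.aestronglyMeasurable hc2.aestronglyMeasurable hp1).trans ?_
    refine add_le_add ?_ ?_
    · refine eLpNorm_mono fun z => ?_
      rw [norm_mul, Complex.norm_real]
      calc ‖ct n z‖ * ‖dzb φ z‖ ≤ 1 * ‖dzb φ z‖ :=
            mul_le_mul_of_nonneg_right (ct_le n z) (norm_nonneg _)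
        _ = ‖dzb φ z‖ := one_mul _
    · refine eLpNorm_le_mul_eLpNorm_of_ae_le_mul (Filter.Eventually.of_forall fun z => ?_) _
      rw [norm_mul]
      exact mul_le_mul_of_nonneg_right (coef_le n K hK z I Complex.norm_I) (norm_nonneg _)
  -- pointwise convergence
  have hpt : ∀ z, Tendsto (fun n : ℕ => dz (fun z => ct n z • φ z) z) atTop (𝓝 (dz φ z)) := by
    intro z
    have t1 : Tendsto (fun n : ℕ => K * ((n : ℝ) + 1)⁻¹ * ‖φ z‖) atTop (𝓝 0) := by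
      have := (tendsto_one_div_add_atTop_nhds_zero_nat (𝕜 := ℝ)).const_mul K
      simp only [one_div, mul_zero] at this
      simpa using this.mul_const ‖φ z‖
    have t2 : Tendsto (fun n : ℕ => (((fderiv ℝ (ct n) z 1 : ℝ) : ℂ) -
        I * ((fderiv ℝ (ct n) z I : ℝ) : ℂ)) / 2 * φ z) atTop (𝓝 0) := by
      refine squeeze_zero_norm (fun n => ?_) t1
      rw [norm_mul]
      refine mul_le_mul_of_nonneg_right ?_ (norm_nonneg _)
      have := coef_le n K hK z (-I) (by rw [norm_neg, Complex.norm_I])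
      rwa [neg_mul, ← sub_eq_add_neg] at this
    have t3 : Tendsto (fun n : ℕ => (ct n z : ℂ) * dz φ z) atTop (𝓝 (dz φ z)) := by
      refine tendsto_const_nhds.congr' ?_
      obtain ⟨N, hN⟩ := exists_nat_ge ‖z‖
      filter_upwards [eventually_ge_atTop N] with n hn
      rw [ct_one n z (hN.trans (by
        have : (N : ℝ) ≤ n := by exact_mod_cast hn
        linarith))]
      simp
    have t4 := t3.add t2
    rw [add_zero] at t4
    refine t4.congr fun n => ?_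
    rw [dz_cut n φ hφ z]
  have hF := Lp.eLpNorm_lim_le_liminf_eLpNorm (p := ENNReal.ofReal p) (μ := volume)
    (f := fun n => dz (fun z => ct n z • φ z))
    (fun n => (dz_cont _ (hsm n)).aestronglyMeasurable) (dz φ) (Filter.Eventually.of_forall hpt)
  refine hF.trans ?_
  have hlim : Tendsto (fun n : ℕ => ENNReal.ofReal C * (eLpNorm (dzb φ) (ENNReal.ofReal p) volume +
        ENNReal.ofReal (K * ((n : ℝ) + 1)⁻¹) * eLpNorm φ (ENNReal.ofReal p) volume)) atTop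
      (𝓝 (ENNReal.ofReal C * (eLpNorm (dzb φ) (ENNReal.ofReal p) volume + 0))) := by
    refine ENNReal.Tendsto.const_mul ?_ (Or.inr ENNReal.ofReal_ne_top)
    refine tendsto_const_nhds.add ?_
    have t1 : Tendsto (fun n : ℕ => ENNReal.ofReal (K * ((n : ℝ) + 1)⁻¹)) atTop (𝓝 0) := by
      have := (tendsto_one_div_add_atTop_nhds_zero_nat (𝕜 := ℝ)).const_mul K
      simp only [one_div, mul_zero] at this
      simpa using ENNReal.tendsto_ofReal this
    simpa using ENNReal.Tendsto.mul_const t1 (Or.inr hL)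
  rw [add_zero] at hlim
  rw [← hlim.liminf_eq]
  refine liminf_le_liminf (Filter.Eventually.of_forall fun n => ?_)
  exact (h _ (hsm n) (hcp n)).trans (mul_le_mul_right (hup n) _)

end Helper85.IE
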