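import Pool.Agent.Helper85.IE.Reg

/-!
# The bound for the Fourier multiplier from the bound for test functions (helper85, MP_3dd6d4_an)
-/

set_option autoImplicit false
set_option maxSynthPendingDepth 3

open MeasureTheory Complex Filter Topology FourierTransform SchwartzMap
open scoped ENNReal NNReal ComplexConjugate

noncomputable section

namespace Helper85.IE

open Helper72.BA Helper85.IW

theorem rap_ww (c : ℝ) (g : ℂ → ℂ) (hg : Rap g) : Rap (fun ξ => (ww c ξ : ℂ) * g ξ) := by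
  refine qA1.2 g _ hg ?_ ⟨0, 1, fun ξ => ?_⟩
  · exact (Complex.continuous_ofReal.comp (ww_cont c)).measurable
  · rw [Complex.norm_real, Real.norm_of_nonneg (ww_nonneg c ξ), pow_zero, mul_one]
    exact ww_le c ξ

theorem HE_split (c : ℝ) (g : ℂ → ℂ) (hg : Rap g) (z : ℂ) :
    HE (fun ξ => ((1 - ww c ξ : ℝ) : ℂ) * g ξ) 0 z =
      HE g 0 z - HE (fun ξ => (ww c ξ : ℂ) * g ξ) 0 z := by
  have h := HE_lin g (fun ξ => (ww c ξ : ℂ) * g ξ) (qA1.1 _ hg).1 (qA1.1 _ (rap_ww c g hg)).1 1 (-1) z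
  have e : (fun ξ => ((1 - ww c ξ : ℝ) : ℂ) * g ξ) =
      (fun ξ => 1 * g ξ + (-1) * ((ww c ξ : ℂ) * g ξ)) := by
    funext ξ
    push_cast
    ring
  rw [e, h]
  ring

/-- the scale -/
def cn (n : ℕ) : ℝ := (n : ℝ) + 1

theorem ww_lim (ξ : ℂ) (h : ξ ≠ 0) : Tendsto (fun n : ℕ => ww (cn n) ξ) atTop (𝓝 0) := by
  have e : (fun n : ℕ => ww (cn n) ξ) = fun n : ℕ => (1 + (cn n) ^ 2 * ‖ξ‖ ^ 2)⁻¹ := by
    funext n; exact ww_eq _ _
  rw [e]
  refine Tendsto.inv_tendsto_atTop ?_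
  refine tendsto_atTop_add_const_left _ _ ?_
  refine Tendsto.atTop_mul_const (by positivity) ?_
  refine (tendsto_pow_atTop (two_ne_zero)).comp ?_
  exact tendsto_atTop_add_const_right _ _ tendsto_natCast_atTop_atTop

theorem norm_HE_le (g : ℂ → ℂ) (hg : Rap g) (z : ℂ) : ‖HE g 0 z‖ ≤ ∫ ξ, ‖g ξ‖ := (qA2 g hg).1 0 z

theorem int_lim (g : ℂ → ℂ) (hg : Rap g) :
    Tendsto (fun n : ℕ => ∫ ξ, ‖(ww (cn n) ξ : ℂ) * g ξ‖) atTop (𝓝 0) := by
  have h := tendsto_integral_of_dominated_convergence (μ := (volume : Measure ℂ))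
    (F := fun (n : ℕ) ξ => ‖(ww (cn n) ξ : ℂ) * g ξ‖) (f := fun _ => (0 : ℝ)) (fun ξ => ‖g ξ‖)
    (fun n => ((qA1.1 _ (rap_ww (cn n) g hg)).1).norm.aestronglyMeasurable)
    (qA1.1 _ hg).1.norm ?_ ?_
  · simpa using h
  · intro n
    refine Filter.Eventually.of_forall fun ξ => ?_
    rw [norm_norm, norm_mul, Complex.norm_real, Real.norm_of_nonneg (ww_nonneg _ ξ)]
    calc ww (cn n) ξ * ‖g ξ‖ ≤ 1 * ‖g ξ‖ := mul_le_mul_of_nonneg_right (ww_le _ _) (norm_nonneg _)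
      _ = ‖g ξ‖ := one_mul _
  · have h0 : ∀ᵐ ξ : ℂ, ξ ≠ 0 := by
      rw [ae_iff]
      simp only [ne_eq, not_not, Set.ofPred_eq_eq_singleton]
      exact measure_singleton 0
    filter_upwards [h0] with ξ hξ
    have t := (ww_lim ξ hξ).mul_const ‖g ξ‖
    rw [zero_mul] at t
    refine t.congr fun n => ?_
    rw [norm_mul, Complex.norm_real, Real.norm_of_nonneg (ww_nonneg _ ξ)]

theorem HE_lim (g : ℂ → ℂ) (hg : Rap g) (z : ℂ) :
    Tendsto (fun n : ℕ => HE (fun ξ => (ww (cn n) ξ : ℂ) * g ξ) 0 z) atTop (𝓝 0) :=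
  squeeze_zero_norm (fun n => norm_HE_le _ (rap_ww (cn n) g hg) z) (int_lim g hg)

theorem HE_cont (g : ℂ → ℂ) (hg : Rap g) : Continuous (HE g 0) :=
  (qA2 g hg).2.comp (by fun_prop : Continuous (fun z : ℂ => ((0 : ℝ), z)))

/-- the L^2 norm of the low frequency part tends to zero -/
theorem l2_lim (g : ℂ → ℂ) (hg : Rap g) :
    Tendsto (fun n : ℕ => ∫⁻ z, ‖HE (fun ξ => (ww (cn n) ξ : ℂ) * g ξ) 0 z‖ₑ ^ 2) atTop (𝓝 0) := by
  obtain ⟨K, hK⟩ := (qA1.1 _ hg).2.1.bdd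
  have hI := (qA1.1 _ hg).1
  have hle : ∀ n : ℕ, ∫⁻ z, ‖HE (fun ξ => (ww (cn n) ξ : ℂ) * g ξ) 0 z‖ₑ ^ 2 ≤
      ENNReal.ofReal K * ENNReal.ofReal (∫ ξ, ‖(ww (cn n) ξ : ℂ) * g ξ‖) := by
    intro n
    rw [qA5 _ (rap_ww (cn n) g hg) 0]
    have hI2 := (qA1.1 _ (rap_ww (cn n) g hg)).1
    rw [ofReal_integral_norm_eq_lintegral_enorm hI2, ← lintegral_const_mul']
    · refine lintegral_mono fun ξ => ?_
      simp only [max_self, neg_zero, zero_mul, Real.exp_zero, Complex.ofReal_one, one_mul]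
      rw [sq]
      refine mul_le_mul_left ?_ _
      rw [enorm_mul]
      have h1 : ‖(ww (cn n) ξ : ℂ)‖ₑ ≤ 1 := by
        rw [← ofReal_norm, Complex.norm_real, Real.norm_of_nonneg (ww_nonneg _ ξ)]
        rw [← ENNReal.ofReal_one]
        exact ENNReal.ofReal_le_ofReal (ww_le _ _)
      have h2 : ‖g ξ‖ₑ ≤ ENNReal.ofReal K := by
        rw [← ofReal_norm]
        exact ENNReal.ofReal_le_ofReal (hK ξ)
      calc ‖(ww (cn n) ξ : ℂ)‖ₑ * ‖g ξ‖ₑ ≤ 1 * ENNReal.ofReal K := mul_le_mul' h1 h2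
        _ = ENNReal.ofReal K := one_mul _
    · exact ENNReal.ofReal_ne_top
  have hlim : Tendsto (fun n : ℕ => ENNReal.ofReal K *
      ENNReal.ofReal (∫ ξ, ‖(ww (cn n) ξ : ℂ) * g ξ‖)) atTop (𝓝 0) := by
    have t := ENNReal.tendsto_ofReal (int_lim g hg)
    rw [ENNReal.ofReal_zero] at t
    simpa using ENNReal.Tendsto.const_mul (a := ENNReal.ofReal K) t (Or.inr ENNReal.ofReal_ne_top)
  exact tendsto_of_tendsto_of_tendsto_of_le_of_le tendsto_const_nhds hlim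
    (fun n => bot_le) hle

/-- the L^p norm (p ≥ 2) of the low frequency part tends to zero -/
theorem lp_lim (p : ℝ) (hp : 2 ≤ p) (g : ℂ → ℂ) (hg : Rap g) :
    Tendsto (fun n : ℕ => eLpNorm (HE (fun ξ => (ww (cn n) ξ : ℂ) * g ξ) 0) (ENNReal.ofReal p) volume)
      atTop (𝓝 0) := by
  have hp0 : 0 < p := by linarith
  have hp1 : ENNReal.ofReal p ≠ 0 := by simpa using hp0
  set M : ℝ := ∫ ξ, ‖g ξ‖ with hM
  have hb : ∀ (n : ℕ) (z : ℂ), ‖HE (fun ξ => (ww (cn n) ξ : ℂ) * g ξ) 0 z‖ ≤ M := by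
    intro n z
    refine (norm_HE_le _ (rap_ww (cn n) g hg) z).trans ?_
    refine integral_mono (qA1.1 _ (rap_ww (cn n) g hg)).1.norm (qA1.1 _ hg).1.norm fun ξ => ?_
    simp only
    rw [norm_mul, Complex.norm_real, Real.norm_of_nonneg (ww_nonneg _ ξ)]
    calc ww (cn n) ξ * ‖g ξ‖ ≤ 1 * ‖g ξ‖ := mul_le_mul_of_nonneg_right (ww_le _ _) (norm_nonneg _)
      _ = ‖g ξ‖ := one_mul _
  have hle : ∀ n : ℕ, eLpNorm (HE (fun ξ => (ww (cn n) ξ : ℂ) * g ξ) 0) (ENNReal.ofReal p) volume ≤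
      (ENNReal.ofReal (M ^ (p - 2)) *
        ∫⁻ z, ‖HE (fun ξ => (ww (cn n) ξ : ℂ) * g ξ) 0 z‖ₑ ^ 2) ^ (1 / p) := by
    intro n
    rw [eLpNorm_eq_lintegral_rpow_enorm_toReal hp1 ENNReal.ofReal_ne_top,
      ENNReal.toReal_ofReal hp0.le]
    refine ENNReal.rpow_le_rpow ?_ (by positivity)
    rw [← lintegral_const_mul' _ _ ENNReal.ofReal_ne_top]
    refine lintegral_mono fun z => ?_
    have h1 : ‖HE (fun ξ => (ww (cn n) ξ : ℂ) * g ξ) 0 z‖ₑ ^ p =
        ‖HE (fun ξ => (ww (cn n) ξ : ℂ) * g ξ) 0 z‖ₑ ^ (p - 2) *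
          ‖HE (fun ξ => (ww (cn n) ξ : ℂ) * g ξ) 0 z‖ₑ ^ 2 := by
      rw [← ENNReal.rpow_natCast, ← ENNReal.rpow_add_of_nonneg _ _ (by linarith) (by norm_num)]
      congr 1
      push_cast
      ring
    rw [h1]
    refine mul_le_mul_left ?_ _
    rw [← ENNReal.ofReal_rpow_of_nonneg (le_trans (norm_nonneg _) (hb n z)) (by linarith)]
    refine ENNReal.rpow_le_rpow ?_ (by linarith)
    rw [← ofReal_norm]
    exact ENNReal.ofReal_le_ofReal (hb n z)
  have hlim : Tendsto (fun n : ℕ => (ENNReal.ofReal (M ^ (p - 2)) *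
        ∫⁻ z, ‖HE (fun ξ => (ww (cn n) ξ : ℂ) * g ξ) 0 z‖ₑ ^ 2) ^ (1 / p)) atTop (𝓝 0) := by
    have t1 := ENNReal.Tendsto.const_mul (a := ENNReal.ofReal (M ^ (p - 2))) (l2_lim g hg)
      (Or.inr ENNReal.ofReal_ne_top)
    rw [mul_zero] at t1
    have t2 := (ENNReal.continuous_rpow_const (y := 1 / p)).tendsto 0 |>.comp t1
    rw [ENNReal.zero_rpow_of_pos (by positivity)] at t2
    exact t2
  exact tendsto_of_tendsto_of_tendsto_of_le_of_le tendsto_const_nhds hlim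
    (fun n => bot_le) hle

/-- the bound for the Beurling-Ahlfors transform of Schwartz functions, from the bound
`‖∂φ‖_p ≤ C ‖∂̄φ‖_p` for test functions `φ` -/
theorem main (p C : ℝ) (hp : 2 ≤ p) (h : Hyp p C) (f : SchwartzMap ℂ ℂ) :
    eLpNorm (Tn 1 f) (ENNReal.ofReal p) volume ≤
      ENNReal.ofReal C * eLpNorm f (ENNReal.ofReal p) volume := by
  have hp1 : (1 : ℝ≥0∞) ≤ ENNReal.ofReal p := by
    rw [← ENNReal.ofReal_one]
    exact ENNReal.ofReal_le_ofReal (by linarith)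
  have hk : ∀ n : ℕ, eLpNorm (dz (ph (cn n) f)) (ENNReal.ofReal p) volume ≤
      ENNReal.ofReal C * eLpNorm (dzb (ph (cn n) f)) (ENNReal.ofReal p) volume := by
    intro n
    refine cut p C (by linarith) h _ (ph (cn n) f).smooth' ?_
    exact ((ph (cn n) f).memLp (ENNReal.ofReal p) volume).2.ne
  have hg := rap_gf f
  have hT := rap_gT f
  have e1 : ∀ n, dzb (ph (cn n) f) = (fun z => f z) - HE (fun ξ => (ww (cn n) ξ : ℂ) * gf f ξ) 0 := by
    intro n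
    funext z
    rw [dzb_ph, HE_split _ _ hg, (qA6 f).2.2.2.1 z]
    rfl
  have e2 : ∀ n z, dz (ph (cn n) f) z = Tn 1 f z - HE (fun ξ => (ww (cn n) ξ : ℂ) * gT f ξ) 0 z := by
    intro n z
    rw [dz_ph, HE_split _ _ hT, (qA6 f).2.2.2.2 z]
  have hup : ∀ n : ℕ, eLpNorm (dzb (ph (cn n) f)) (ENNReal.ofReal p) volume ≤
      eLpNorm f (ENNReal.ofReal p) volume +
        eLpNorm (HE (fun ξ => (ww (cn n) ξ : ℂ) * gf f ξ) 0) (ENNReal.ofReal p) volume := by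
    intro n
    rw [e1 n]
    exact eLpNorm_sub_le f.continuous.aestronglyMeasurable
      (HE_cont _ (rap_ww (cn n) _ hg)).aestronglyMeasurable hp1
  have hpt : ∀ z, Tendsto (fun n : ℕ => dz (ph (cn n) f) z) atTop (𝓝 (Tn 1 f z)) := by
    intro z
    have t := (tendsto_const_nhds (x := Tn 1 f z)).sub (HE_lim _ hT z)
    rw [sub_zero] at t
    exact t.congr fun n => (e2 n z).symm
  have hF := Lp.eLpNorm_lim_le_liminf_eLpNorm (p := ENNReal.ofReal p) (μ := volume)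
    (f := fun n => dz (ph (cn n) f))
    (fun n => (dz_cont _ (ph (cn n) f).smooth').aestronglyMeasurable) (Tn 1 f)
    (Filter.Eventually.of_forall hpt)
  refine hF.trans ?_
  have hlim : Tendsto (fun n : ℕ => ENNReal.ofReal C * (eLpNorm f (ENNReal.ofReal p) volume +
        eLpNorm (HE (fun ξ => (ww (cn n) ξ : ℂ) * gf f ξ) 0) (ENNReal.ofReal p) volume)) atTop
      (𝓝 (ENNReal.ofReal C * (eLpNorm f (ENNReal.ofReal p) volume + 0))) := by
    refine ENNReal.Tendsto.const_mul ?_ (Or.inr ENNReal.ofReal_ne_top)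
    exact tendsto_const_nhds.add (lp_lim p hp _ hg)
  rw [add_zero] at hlim
  rw [← hlim.liminf_eq]
  refine liminf_le_liminf (Filter.Eventually.of_forall fun n => ?_)
  exact (hk n).trans (mul_le_mul_right (hup n) _)

/-- the same with the transform written out as in `IwaniecBound` -/
theorem main' (p C : ℝ) (hp : 2 ≤ p) (h : Hyp p C) (f : SchwartzMap ℂ ℂ) :
    MeasureTheory.eLpNorm
        (fun z : ℂ => ∫ ξ : ℂ,
          Complex.exp (2 * (Real.pi : ℂ) * Complex.I * ((z.re * ξ.re + z.im * ξ.im : ℝ) : ℂ)) *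
            ((starRingEnd ℂ ξ / ξ) *
              ∫ w : ℂ, Complex.exp (-(2 * (Real.pi : ℂ) * Complex.I *
                ((w.re * ξ.re + w.im * ξ.im : ℝ) : ℂ))) * f w))
        (ENNReal.ofReal p) MeasureTheory.volume
      ≤ ENNReal.ofReal C *
        MeasureTheory.eLpNorm (fun z : ℂ => f z) (ENNReal.ofReal p) MeasureTheory.volume := by
  have h1 := main p C hp h f
  have e : Tn 1 f = (fun z : ℂ => ∫ ξ : ℂ,
          Complex.exp (2 * (Real.pi : ℂ) * Complex.I * ((z.re * ξ.re + z.im * ξ.im : ℝ) : ℂ)) *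
            ((starRingEnd ℂ ξ / ξ) *
              ∫ w : ℂ, Complex.exp (-(2 * (Real.pi : ℂ) * Complex.I *
                ((w.re * ξ.re + w.im * ξ.im : ℝ) : ℂ))) * f w)) := by
    funext z
    simp only [Tn, pow_one]
  rw [e] at h1
  exact h1

end Helper85.IE
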