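import Pool.Agent.Helper85.IE.GapT
import Pool.Agent.Helper61.IE.Main

/-!
# Irreducible embeddings of property (T) factors
-/

namespace Helper85.IE

open Helper51.MU Helper61.IE

/-- Connes embeddable property (T) factors embed irreducibly. -/
theorem hasIrr_of_propT {G : Type} [Group G] [Countable G] (χ : G → ℂ) (hχ : IsExtremalChar χ)
    (hinf : InfiniteDim χ) (hT : PropT χ) (l : ℕ → ℕ) (V : Ultrafilter ℕ)
    (u : G →* MUlt (fun n => Fin (l n)) V) (hu : ∀ g, star (u g) * u g = 1)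
    (htr : ∀ g, tr (u g) = χ g) : HasIrr χ := by
  obtain ⟨π, x, h1, h2, h3, h4⟩ := pLift G χ l V u hu htr
  obtain ⟨S, K, hSK⟩ := gapH_of_propT G χ l V u π x h1 h2 h3 h4 hT
  exact main_of (pSeq pCompr pCutC) (pMin pDiag) (pSec pCompr pCutC pLimChar)
    (pProjIrr pDiag pRound3) (pModels pDim) (pHas pIrr) typBlock χ hχ hinf l V π h1 h4 S K hSK

end Helper85.IE
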