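import Pool.Agent.Helper61.IE.St2
import Pool.Agent.Helper85.IE.Defs

/-!
# Property (T) gives the gap hypothesis (bounded vectors; adapted from Helper61.IE.PGapT)
-/

namespace Helper85.IE

open Helper51.MU Helper61.IE Filter Topology
open scoped Matrix.Norms.L2Operator MatrixOrder ComplexOrder

section hilbert

variable {G : Type} [Group G]

private lemma gt_cext {E : Type} [SeminormedAddCommGroup E] [InnerProductSpace ℂ E]
    {f g : UniformSpace.Completion E → UniformSpace.Completion E} (hf : Continuous f)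
    (hg : Continuous g) (h : ∀ ξ : E, f (ξ : UniformSpace.Completion E) = g ξ) (η) : f η = g η :=
  UniformSpace.Completion.induction_on η (isClosed_eq hf hg) h

private lemma gt_gapE {χ : G → ℂ} {S : Finset G} {K δ : ℝ}
    (hT : ∀ (H : Type) [NormedAddCommGroup H] [InnerProductSpace ℂ H] [CompleteSpace H]
      (α β : G → H → H), URep α → URep β → (∀ g h ξ, α g (β h ξ) = β h (α g ξ)) →
      Dense {ξ | ChiBd χ α ξ} → Dense {ξ | ChiBd (fun g => star (χ g)) β ξ} →
      ∀ ξ : H, Subtracial χ α ξ → Subtracial (fun g => star (χ g)) β ξ →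
        ∃ η : H, (∀ g, α g (β g η) = η) ∧
          ‖ξ - η‖ ^ 2 ≤ K * ∑ s ∈ S, ‖α s (β s ξ) - ξ‖ ^ 2 + δ)
    (E : Type) [SeminormedAddCommGroup E] [InnerProductSpace ℂ E]
    (a b : G → E →L[ℂ] E) (a1 : ∀ ξ, a 1 ξ = ξ) (b1 : ∀ ξ, b 1 ξ = ξ)
    (am : ∀ g h ξ, a (g * h) ξ = a g (a h ξ)) (bm : ∀ g h ξ, b (g * h) ξ = b g (b h ξ))
    (ha : ∀ g ξ, ‖a g ξ‖ = ‖ξ‖) (hb : ∀ g ξ, ‖b g ξ‖ = ‖ξ‖)
    (hab : ∀ g h ξ, a g (b h ξ) = b h (a g ξ))
    (hCa : ∀ ξ : E, ∃ C : ℝ, ∀ (m : ℕ) (t : Fin m → ℂ) (x : Fin m → G),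
      ‖∑ i, t i • a (x i) ξ‖ ^ 2 ≤
        C * (∑ i, ∑ k, star (t i) * t k * χ ((x i)⁻¹ * x k)).re)
    (hCb : ∀ ξ : E, ∃ C : ℝ, ∀ (m : ℕ) (t : Fin m → ℂ) (x : Fin m → G),
      ‖∑ i, t i • b (x i) ξ‖ ^ 2 ≤
        C * (∑ i, ∑ k, star (t i) * t k * star (χ ((x i)⁻¹ * x k))).re)
    (F : Finset G) (hF : F.Nonempty) (T : E → E)
    (hTdef : ∀ ξ, T ξ = (1 / 2 : ℂ) • ξ + (1 / (4 * F.card) : ℂ) •
      ∑ s ∈ F, (a s (b s ξ) + a s⁻¹ (b s⁻¹ ξ)))
    (k : ℕ) (ξ : E)
    (hχa : ∀ (m : ℕ) (t : Fin m → ℂ) (x : Fin m → G),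
      ‖∑ i, t i • a (x i) ξ‖ ^ 2 ≤
        (∑ i, ∑ k, star (t i) * t k * χ ((x i)⁻¹ * x k)).re)
    (hχb : ∀ (m : ℕ) (t : Fin m → ℂ) (x : Fin m → G),
      ‖∑ i, t i • b (x i) ξ‖ ^ 2 ≤
        (∑ i, ∑ k, star (t i) * t k * star (χ ((x i)⁻¹ * x k))).re) :
    ‖ξ - T^[k] ξ‖ ^ 2 ≤ 4 * K * ∑ s ∈ S, ‖a s (b s ξ) - ξ‖ ^ 2 + 4 * δ := by
  let H := UniformSpace.Completion E
  let α : G →* (H →L[ℂ] H) :=
    { toFun := fun g => (a g).completion
      map_one' := by
        refine ContinuousLinearMap.ext fun η => ?_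
        refine gt_cext (f := fun η => (a 1).completion η) (g := fun η => η)
          (ContinuousLinearMap.continuous _) continuous_id (fun ξ => ?_) η
        simp only [ContinuousLinearMap.completion_apply_coe, a1]
      map_mul' := fun g h => by
        refine ContinuousLinearMap.ext fun η => ?_
        refine gt_cext (f := fun η => (a (g * h)).completion η)
          (g := fun η => (a g).completion ((a h).completion η))
          (ContinuousLinearMap.continuous _)
          ((ContinuousLinearMap.continuous _).comp (ContinuousLinearMap.continuous _))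
          (fun ξ => ?_) η
        simp only [ContinuousLinearMap.completion_apply_coe, am] }
  let β : G →* (H →L[ℂ] H) :=
    { toFun := fun g => (b g).completion
      map_one' := by
        refine ContinuousLinearMap.ext fun η => ?_
        refine gt_cext (f := fun η => (b 1).completion η) (g := fun η => η)
          (ContinuousLinearMap.continuous _) continuous_id (fun ξ => ?_) η
        simp only [ContinuousLinearMap.completion_apply_coe, b1]
      map_mul' := fun g h => by
        refine ContinuousLinearMap.ext fun η => ?_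
        refine gt_cext (f := fun η => (b (g * h)).completion η)
          (g := fun η => (b g).completion ((b h).completion η))
          (ContinuousLinearMap.continuous _)
          ((ContinuousLinearMap.continuous _).comp (ContinuousLinearMap.continuous _))
          (fun ξ => ?_) η
        simp only [ContinuousLinearMap.completion_apply_coe, bm] }
  have hαc : ∀ g (ξ : E), α g (ξ : H) = ((a g ξ : E) : H) := fun g ξ =>
    ContinuousLinearMap.completion_apply_coe _ _
  have hβc : ∀ g (ξ : E), β g (ξ : H) = ((b g ξ : E) : H) := fun g ξ =>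
    ContinuousLinearMap.completion_apply_coe _ _
  have hαn : ∀ g (η : H), ‖α g η‖ = ‖η‖ := by
    intro g η
    refine UniformSpace.Completion.induction_on η
      (isClosed_eq (α g).continuous.norm continuous_norm) fun ξ => ?_
    rw [hαc, UniformSpace.Completion.norm_coe, UniformSpace.Completion.norm_coe, ha]
  have hβn : ∀ g (η : H), ‖β g η‖ = ‖η‖ := by
    intro g η
    refine UniformSpace.Completion.induction_on η
      (isClosed_eq (β g).continuous.norm continuous_norm) fun ξ => ?_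
    rw [hβc, UniformSpace.Completion.norm_coe, UniformSpace.Completion.norm_coe, hb]
  have hαβ : ∀ g h (η : H), α g (β h η) = β h (α g η) := by
    intro g h η
    refine gt_cext (f := fun η => α g (β h η)) (g := fun η => β h (α g η))
      ((α g).continuous.comp (β h).continuous) ((β h).continuous.comp (α g).continuous)
      (fun ξ => ?_) η
    simp only [hαc, hβc, hab]
  have hsum : ∀ (m : ℕ) (t : Fin m → ℂ) (y : Fin m → E),
      ∑ i, t i • ((y i : E) : H) = ((∑ i, t i • y i : E) : H) := by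
    intro m t y
    have h1 : ((∑ i, t i • y i : E) : H) =
        (UniformSpace.Completion.toComplL : E →L[ℂ] H) (∑ i, t i • y i) := rfl
    rw [h1, map_sum]
    refine Finset.sum_congr rfl fun i _ => ?_
    rw [map_smul]
    rfl
  have hdense : ∀ s : Set H, (∀ ξ : E, (ξ : H) ∈ s) → Dense s := by
    intro s hs
    refine Dense.mono ?_ (UniformSpace.Completion.denseRange_coe (α := E))
    rintro _ ⟨ξ, rfl⟩
    exact hs ξ
  obtain ⟨p, hp, hz⟩ := hT H (fun g ξ => α g ξ) (fun g ξ => β g ξ) (urep_hom α hαn)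
    (urep_hom β hβn) hαβ
    (hdense _ fun ξ => by
      obtain ⟨C, hC⟩ := hCa ξ
      refine ⟨C, fun m t x => ?_⟩
      simp only [hαc]
      rw [hsum, UniformSpace.Completion.norm_coe]
      exact hC m t x)
    (hdense _ fun ξ => by
      obtain ⟨C, hC⟩ := hCb ξ
      refine ⟨C, fun m t x => ?_⟩
      simp only [hβc]
      rw [hsum, UniformSpace.Completion.norm_coe]
      exact hC m t x)
    (ξ : H)
    (fun m t x => by
      simp only [hαc]
      rw [hsum, UniformSpace.Completion.norm_coe]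
      exact hχa m t x)
    (fun m t x => by
      simp only [hβc]
      rw [hsum, UniformSpace.Completion.norm_coe]
      exact hχb m t x)
  let TH : H → H := fun η => (1 / 2 : ℂ) • η + (1 / (4 * F.card) : ℂ) •
      ∑ s ∈ F, (α s (β s η) + α s⁻¹ (β s⁻¹ η))
  have hFc : (F.card : ℂ) ≠ 0 := by
    have := hF.card_pos
    exact_mod_cast this.ne'
  have hFr : (0 : ℝ) < F.card := by exact_mod_cast hF.card_pos
  have hTH1 : ∀ η, TH (p + η) = p + TH η := by
    intro η
    have h1 : ∀ s ∈ F, α s (β s (p + η)) + α s⁻¹ (β s⁻¹ (p + η)) =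
        (2 : ℂ) • p + (α s (β s η) + α s⁻¹ (β s⁻¹ η)) := by
      intro s _
      rw [map_add, map_add, map_add, map_add, hp s, hp s⁻¹, two_smul]
      abel
    show (1 / 2 : ℂ) • (p + η) + (1 / (4 * F.card) : ℂ) •
      ∑ s ∈ F, (α s (β s (p + η)) + α s⁻¹ (β s⁻¹ (p + η))) = p + ((1 / 2 : ℂ) • η +
      (1 / (4 * F.card) : ℂ) • ∑ s ∈ F, (α s (β s η) + α s⁻¹ (β s⁻¹ η)))
    rw [Finset.sum_congr rfl h1, Finset.sum_add_distrib, Finset.sum_const, smul_add, smul_add,
      ← Nat.cast_smul_eq_nsmul ℂ, smul_smul, smul_smul]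
    have h2 : (1 / (4 * (F.card : ℂ)) * ((F.card : ℂ) * 2)) = 1 / 2 := by
      field_simp
      norm_num
    rw [← mul_assoc] at h2
    rw [h2]
    have h3 : (1 / 2 : ℂ) • p + (1 / 2 : ℂ) • p = p := by
      rw [← add_smul]
      norm_num
    calc _ = ((1 / 2 : ℂ) • p + (1 / 2 : ℂ) • p) + ((1 / 2 : ℂ) • η +
      (1 / (4 * F.card) : ℂ) • ∑ s ∈ F, (α s (β s η) + α s⁻¹ (β s⁻¹ η))) := by abel
      _ = _ := by rw [h3]
  have hTH2 : ∀ η, ‖TH η‖ ≤ ‖η‖ := by
    intro η
    show ‖(1 / 2 : ℂ) • η + (1 / (4 * F.card) : ℂ) •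
      ∑ s ∈ F, (α s (β s η) + α s⁻¹ (β s⁻¹ η))‖ ≤ ‖η‖
    have h1 : ‖∑ s ∈ F, (α s (β s η) + α s⁻¹ (β s⁻¹ η))‖ ≤ F.card * (2 * ‖η‖) := by
      refine (norm_sum_le _ _).trans ?_
      have : ∀ s ∈ F, ‖α s (β s η) + α s⁻¹ (β s⁻¹ η)‖ ≤ 2 * ‖η‖ := by
        intro s _
        refine (norm_add_le _ _).trans ?_
        rw [hαn, hβn, hαn, hβn]
        linarith
      refine (Finset.sum_le_sum this).trans ?_
      rw [Finset.sum_const, nsmul_eq_mul]
    refine (norm_add_le _ _).trans ?_
    rw [norm_smul, norm_smul]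
    have h2 : ‖(1 / 2 : ℂ)‖ = 1 / 2 := by norm_num
    have h3 : ‖(1 / (4 * F.card) : ℂ)‖ = 1 / (4 * F.card) := by
      rw [norm_div, norm_one, norm_mul, Complex.norm_natCast]
      norm_num
    rw [h2, h3]
    have h4 : 1 / (4 * (F.card : ℝ)) * ‖∑ s ∈ F, (α s (β s η) + α s⁻¹ (β s⁻¹ η))‖ ≤
        1 / (4 * (F.card : ℝ)) * (F.card * (2 * ‖η‖)) :=
      mul_le_mul_of_nonneg_left h1 (by positivity)
    have h5 : 1 / (4 * (F.card : ℝ)) * (F.card * (2 * ‖η‖)) = 1 / 2 * ‖η‖ := by
      field_simp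
      norm_num
    linarith
  have hTH3 : ∀ ξ : E, TH (ξ : H) = ((T ξ : E) : H) := by
    intro ξ
    rw [hTdef]
    have h1 : ∀ z : E, (z : H) = (UniformSpace.Completion.toComplL : E →L[ℂ] H) z := fun z => rfl
    show (1 / 2 : ℂ) • (ξ : H) + (1 / (4 * F.card) : ℂ) •
      ∑ s ∈ F, (α s (β s (ξ : H)) + α s⁻¹ (β s⁻¹ (ξ : H))) = _
    simp only [hαc, hβc]
    simp only [h1, map_add, map_smul, map_sum]
  have hit1 : ∀ j, TH^[j] (ξ : H) = ((T^[j] ξ : E) : H) := by
    intro j
    induction j with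
    | zero => rfl
    | succ j ih => rw [Function.iterate_succ_apply', Function.iterate_succ_apply', ih, hTH3]
  set ζ : H := (ξ : H) - p with hζ
  have hξ : (ξ : H) = p + ζ := by rw [hζ]; abel
  have hit2 : ∀ j, TH^[j] (p + ζ) = p + TH^[j] ζ := by
    intro j
    induction j with
    | zero => rfl
    | succ j ih => rw [Function.iterate_succ_apply', Function.iterate_succ_apply', ih, hTH1]
  have hit3 : ∀ j, ‖TH^[j] ζ‖ ≤ ‖ζ‖ := by
    intro j
    induction j with
    | zero => exact le_rfl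
    | succ j ih =>
      rw [Function.iterate_succ_apply']
      exact (hTH2 _).trans ih
  have hn1 : ‖ξ - T^[k] ξ‖ ≤ 2 * ‖ζ‖ := by
    have h1 : ((ξ - T^[k] ξ : E) : H) = ζ - TH^[k] ζ := by
      rw [UniformSpace.Completion.coe_sub, ← hit1, hξ, hit2]
      abel
    rw [← UniformSpace.Completion.norm_coe, h1]
    refine (norm_sub_le _ _).trans ?_
    have := hit3 k
    linarith
  have hn2 : ∀ s, ‖α s (β s (ξ : H)) - (ξ : H)‖ = ‖a s (b s ξ) - ξ‖ := by
    intro s
    rw [hβc, hαc, ← UniformSpace.Completion.coe_sub, UniformSpace.Completion.norm_coe]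
  simp only [hn2] at hz
  have h5 : ‖ξ - T^[k] ξ‖ ^ 2 ≤ 4 * ‖ζ‖ ^ 2 := by
    have := norm_nonneg (ξ - T^[k] ξ)
    nlinarith
  linarith

end hilbert

section abstr

variable {A : Type} [Ring A] [StarRing A] [Algebra ℂ A]

/-- tracial *-algebras with bounded elements -/
private structure GTr (τ : A → ℂ) : Prop where
  add : ∀ a b, τ (a + b) = τ a + τ b
  smul : ∀ (c : ℂ) a, τ (c • a) = c * τ a
  str : ∀ a, τ (star a) = star (τ a)
  comm : ∀ a b, τ (a * b) = τ (b * a)
  nonneg : ∀ a, 0 ≤ (τ (star a * a)).re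
  ssmul : ∀ (c : ℂ) (a : A), star (c • a) = star c • star a
  bdd : ∀ y, ∃ C : ℝ, (∀ B, (τ (star (B * y) * (B * y))).re ≤ C * (τ (star B * B)).re) ∧
    ∀ B, (τ (star (y * B) * (y * B))).re ≤ C * (τ (star B * B)).re

private lemma GTr.sum {τ : A → ℂ} (hτ : GTr τ) {κ : Type} (s : Finset κ) (f : κ → A) :
    τ (∑ i ∈ s, f i) = ∑ i ∈ s, τ (f i) := by
  classical
  induction s using Finset.induction_on with
  | empty =>
    rw [Finset.sum_empty, Finset.sum_empty]
    have := hτ.smul (0 : ℂ) (0 : A)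
    rwa [zero_smul, zero_mul] at this
  | insert i s hi ih => rw [Finset.sum_insert hi, Finset.sum_insert hi, hτ.add, ih]

/-- the 2-norm of a linear combination -/
private lemma GTr.nrm_sum {τ : A → ℂ} (hτ : GTr τ) (m : ℕ) (t : Fin m → ℂ) (w : Fin m → A) :
    (τ (star (∑ i, t i • w i) * ∑ i, t i • w i)).re =
      (∑ i, ∑ k, star (t i) * t k * τ (star (w i) * w k)).re := by
  congr 1
  rw [star_sum, Finset.sum_mul, hτ.sum]
  refine Finset.sum_congr rfl fun i _ => ?_
  rw [Finset.mul_sum, hτ.sum]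
  refine Finset.sum_congr rfl fun k _ => ?_
  rw [hτ.ssmul, smul_mul_assoc, mul_smul_comm, hτ.smul, hτ.smul, mul_assoc]

private lemma gt_left {τ : A → ℂ} {w y : A} (hw : star w * w = 1) :
    (τ (star (w * y) * (w * y))).re = (τ (star y * y)).re := by
  have : star (w * y) * (w * y) = star y * y := by
    calc star (w * y) * (w * y) = star y * (star w * w) * y := by rw [star_mul]; noncomm_ring
      _ = star y * y := by rw [hw, mul_one]
  rw [this]

private lemma GTr.right {τ : A → ℂ} (hτ : GTr τ) {w y : A} (hw : w * star w = 1) :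
    (τ (star (y * w) * (y * w))).re = (τ (star y * y)).re := by
  have h1 : star (y * w) * (y * w) = star w * (star y * y * w) := by
    rw [star_mul]; noncomm_ring
  rw [h1, hτ.comm]
  have h2 : star y * y * w * star w = star y * y := by rw [mul_assoc, hw, mul_one]
  rw [h2]

/-- the pre-inner product -/
private noncomputable def GTr.core {τ : A → ℂ} (hτ : GTr τ) : PreInnerProductSpace.Core ℂ A where
  inner x y := τ (star x * y)
  conj_inner_symm x y := by
    show star (τ (star y * x)) = τ (star x * y)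
    rw [← hτ.str, star_mul, star_star]
  re_inner_nonneg x := hτ.nonneg x
  add_left x y z := by
    show τ (star (x + y) * z) = τ (star x * z) + τ (star y * z)
    rw [star_add, add_mul, hτ.add]
  smul_left x y r := by
    show τ (star (r • x) * y) = star r * τ (star x * y)
    rw [hτ.ssmul, smul_mul_assoc, hτ.smul]

/-- the averaging operator -/
private noncomputable def gt_T {G : Type} (F : Finset G) (u : G → A) (y : A) : A :=
  (1 / 2 : ℂ) • y + (1 / (4 * F.card) : ℂ) •
    ∑ s ∈ F, (u s * y * star (u s) + star (u s) * y * u s)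

private lemma gt_main {G : Type} [Group G] {χ : G → ℂ} {S : Finset G} {K δ : ℝ}
    (hT : ∀ (H : Type) [NormedAddCommGroup H] [InnerProductSpace ℂ H] [CompleteSpace H]
      (α β : G → H → H), URep α → URep β → (∀ g h ξ, α g (β h ξ) = β h (α g ξ)) →
      Dense {ξ | ChiBd χ α ξ} → Dense {ξ | ChiBd (fun g => star (χ g)) β ξ} →
      ∀ ξ : H, Subtracial χ α ξ → Subtracial (fun g => star (χ g)) β ξ →
        ∃ η : H, (∀ g, α g (β g η) = η) ∧
          ‖ξ - η‖ ^ 2 ≤ K * ∑ s ∈ S, ‖α s (β s ξ) - ξ‖ ^ 2 + δ)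
    {τ : A → ℂ} (hτ : GTr τ)
    (u : G →* A) (hu : ∀ g, star (u g) * u g = 1) (htr : ∀ g, τ (u g) = χ g)
    (F : Finset G) (hF : F.Nonempty) (k : ℕ) (y : A)
    (hy : (∀ B, (τ (star (B * y) * (B * y))).re ≤ (τ (star B * B)).re) ∧
      ∀ B, (τ (star (y * B) * (y * B))).re ≤ (τ (star B * B)).re) :
    (τ (star (y - (gt_T F u)^[k] y) * (y - (gt_T F u)^[k] y))).re ≤
      4 * K * ∑ s ∈ S, (τ (star (u s * y - y * u s) * (u s * y - y * u s))).re + 4 * δ := by
  have hinv : ∀ g, star (u g) = u g⁻¹ := by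
    intro g
    have h1 : u g * u g⁻¹ = 1 := by rw [← map_mul, mul_inv_cancel, map_one]
    calc star (u g) = star (u g) * (u g * u g⁻¹) := by rw [h1, mul_one]
      _ = u g⁻¹ := by rw [← mul_assoc, hu, one_mul]
  have hu' : ∀ g, u g * star (u g) = 1 := by
    intro g
    rw [hinv, ← map_mul, mul_inv_cancel, map_one]
  let _ : SeminormedAddCommGroup A :=
    @InnerProductSpace.Core.toSeminormedAddCommGroup ℂ A _ _ _ hτ.core
  let _ : InnerProductSpace ℂ A := InnerProductSpace.ofCore hτ.core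
  have hnorm : ∀ y : A, ‖y‖ ^ 2 = (τ (star y * y)).re := fun y =>
    InnerProductSpace.norm_sq_eq_re_inner (𝕜 := ℂ) y
  have hisoL : ∀ g (y : A), ‖u g * y‖ = ‖y‖ := by
    intro g y
    have h1 := hnorm (u g * y)
    rw [gt_left (hu g), ← hnorm y] at h1
    exact (pow_left_inj₀ (norm_nonneg _) (norm_nonneg _) two_ne_zero).1 h1
  have hisoR : ∀ g (y : A), ‖y * star (u g)‖ = ‖y‖ := by
    intro g y
    have h1 := hnorm (y * star (u g))
    rw [hτ.right (by rw [star_star]; exact hu g), ← hnorm y] at h1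
    exact (pow_left_inj₀ (norm_nonneg _) (norm_nonneg _) two_ne_zero).1 h1
  let a : G → A →L[ℂ] A := fun g =>
    LinearMap.mkContinuous
      { toFun := fun y => u g * y
        map_add' := fun x y => mul_add _ _ _
        map_smul' := fun r x => mul_smul_comm _ _ _ } 1
      (fun y => by rw [one_mul]; exact (hisoL g y).le)
  let b : G → A →L[ℂ] A := fun g =>
    LinearMap.mkContinuous
      { toFun := fun y => y * star (u g)
        map_add' := fun x y => add_mul _ _ _
        map_smul' := fun r x => smul_mul_assoc _ _ _ } 1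
      (fun y => by rw [one_mul]; exact (hisoR g y).le)
  have ha : ∀ g y, a g y = u g * y := fun g y => rfl
  have hb : ∀ g y, b g y = y * star (u g) := fun g y => rfl
  have key := gt_gapE (χ := χ) (S := S) hT A a b
    (fun ξ => by rw [ha, map_one, one_mul])
    (fun ξ => by rw [hb, map_one, star_one, mul_one])
    (fun g h ξ => by rw [ha, ha, ha, map_mul, mul_assoc])
    (fun g h ξ => by rw [hb, hb, hb, map_mul, star_mul, mul_assoc])
    (fun g ξ => hisoL g ξ) (fun g ξ => hisoR g ξ)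
    (fun g h ξ => by rw [ha, hb, hb, ha, mul_assoc])
    (fun ξ => by
      obtain ⟨C, hC, -⟩ := hτ.bdd ξ
      refine ⟨C, fun m t x => ?_⟩
      have h1 : ∑ i, t i • a (x i) ξ = (∑ i, t i • u (x i)) * ξ := by
        rw [Finset.sum_mul]
        exact Finset.sum_congr rfl fun i _ => by rw [ha, smul_mul_assoc]
      rw [hnorm, h1]
      refine (hC _).trans (le_of_eq ?_)
      rw [hτ.nrm_sum]
      congr 2
      refine Finset.sum_congr rfl fun i _ => Finset.sum_congr rfl fun k _ => ?_
      rw [hinv, ← map_mul, htr])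
    (fun ξ => by
      obtain ⟨C, -, hC⟩ := hτ.bdd ξ
      refine ⟨C, fun m t x => ?_⟩
      have h1 : ∑ i, t i • b (x i) ξ = ξ * (∑ i, t i • star (u (x i))) := by
        rw [Finset.mul_sum]
        exact Finset.sum_congr rfl fun i _ => by rw [hb, mul_smul_comm]
      rw [hnorm, h1]
      refine (hC _).trans (le_of_eq ?_)
      rw [hτ.nrm_sum]
      congr 2
      refine Finset.sum_congr rfl fun i _ => Finset.sum_congr rfl fun k _ => ?_
      congr 1
      rw [← htr, ← hτ.str, map_mul, star_mul, star_star, hτ.comm, hinv, hinv, inv_inv])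
    F hF (gt_T F u)
    (fun ξ => by
      unfold gt_T
      congr 2
      refine Finset.sum_congr rfl fun s _ => ?_
      rw [ha, hb, ha, hb, ← hinv, star_star, mul_assoc, mul_assoc])
    k y
    (fun m t x => by
      have h1 : ∑ i, t i • a (x i) y = (∑ i, t i • u (x i)) * y := by
        rw [Finset.sum_mul]
        exact Finset.sum_congr rfl fun i _ => by rw [ha, smul_mul_assoc]
      rw [hnorm, h1]
      refine (hy.1 _).trans (le_of_eq ?_)
      rw [hτ.nrm_sum]
      congr 1
      refine Finset.sum_congr rfl fun i _ => Finset.sum_congr rfl fun k _ => ?_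
      rw [hinv, ← map_mul, htr])
    (fun m t x => by
      have h1 : ∑ i, t i • b (x i) y = y * (∑ i, t i • star (u (x i))) := by
        rw [Finset.mul_sum]
        exact Finset.sum_congr rfl fun i _ => by rw [hb, mul_smul_comm]
      rw [hnorm, h1]
      refine (hy.2 _).trans (le_of_eq ?_)
      rw [hτ.nrm_sum]
      congr 1
      refine Finset.sum_congr rfl fun i _ => Finset.sum_congr rfl fun k _ => ?_
      congr 1
      rw [← htr, ← hτ.str, map_mul, star_mul, star_star, hτ.comm, hinv, hinv, inv_inv])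
  rw [hnorm] at key
  refine key.trans (le_of_eq ?_)
  congr 2
  refine Finset.sum_congr rfl fun s _ => ?_
  rw [hnorm, ha, hb]
  have h1 : u s * (y * star (u s)) - y = (u s * y - y * u s) * star (u s) := by
    rw [sub_mul, mul_assoc y, hu', mul_one, mul_assoc]
  rw [h1, hτ.right (by rw [star_star]; exact hu s)]

private lemma gt_map {B : Type} [Ring B] [StarRing B] [Algebra ℂ B] (f : A →+* B)
    (hs : ∀ (c : ℂ) a, f (c • a) = c • f a) (hst : ∀ a, f (star a) = star (f a)) {G : Type}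
    (F : Finset G) (x : G → A) (y : A) :
    f (gt_T F x y) = gt_T F (fun g => f (x g)) (f y) := by
  unfold gt_T
  rw [map_add, hs, hs, map_sum]
  congr 2
  refine Finset.sum_congr rfl fun s _ => ?_
  rw [map_add, map_mul, map_mul, map_mul, map_mul, hst]

private lemma gt_map_iter {B : Type} [Ring B] [StarRing B] [Algebra ℂ B] (f : A →+* B)
    (hs : ∀ (c : ℂ) a, f (c • a) = c • f a) (hst : ∀ a, f (star a) = star (f a)) {G : Type}
    (F : Finset G) (x : G → A) (k : ℕ) (y : A) :
    f ((gt_T F x)^[k] y) = (gt_T F fun g => f (x g))^[k] (f y) := by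
  induction k with
  | zero => rfl
  | succ k ih => rw [Function.iterate_succ_apply', Function.iterate_succ_apply', gt_map f hs hst, ih]

private lemma gt_TT {κ : Type} [Fintype κ] [DecidableEq κ] {G : Type} (F : Finset G)
    (v : G → Matrix κ κ ℂ) (k : ℕ) (y : Matrix κ κ ℂ) :
    (gt_T F v)^[k] y = (TT F v ^ k) y := by
  have h1 : ∀ y, gt_T F v y = TT F v y := by
    intro y
    show (1 / 2 : ℂ) • y + (1 / (4 * F.card) : ℂ) •
      ∑ s ∈ F, (v s * y * star (v s) + star (v s) * y * v s) = (1 / 2 : ℝ) • y +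
      (1 / (4 * F.card) : ℝ) •
      ∑ s ∈ F, (v s * y * (v s).conjTranspose + (v s).conjTranspose * y * v s)
    rw [← Complex.coe_smul, ← Complex.coe_smul]
    push_cast
    rfl
  induction k with
  | zero => rw [pow_zero]; rfl
  | succ k ih => rw [Function.iterate_succ_apply', ih, h1, pow_succ', Module.End.mul_apply]

end abstr

section ult

variable {ι : ℕ → Type} [∀ n, Fintype (ι n)] [∀ n, DecidableEq (ι n)] {V : Ultrafilter ℕ}

private lemma gt_ntr_star_mul {κ : Type} [Fintype κ] (x : Matrix κ κ ℂ) :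
    ntr (x.conjTranspose * x) = ((nn x : ℝ) : ℂ) := by
  unfold ntr nn hs
  rw [Complex.ofReal_div, Complex.ofReal_natCast]
  congr 1
  simp only [Matrix.mul_apply, Matrix.conjTranspose_apply]
  rw [Finset.sum_comm, Complex.ofReal_sum]
  refine Finset.sum_congr rfl fun i _ => ?_
  rw [Complex.ofReal_sum]
  refine Finset.sum_congr rfl fun j _ => ?_
  rw [RCLike.star_def, Complex.conj_mul', Complex.ofReal_pow]

private lemma gt_tendsto_tr (x : BSeq ι) :
    Tendsto (fun n => ntr (x.1 n)) V (𝓝 (tr (mkM V x))) := tendsto_ntr x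

private lemma gt_tendsto_nn (y : BSeq ι) :
    Tendsto (fun n => nn (y.1 n)) V (𝓝 (nrm (mkM V y))) := by
  have h2 := (Complex.continuous_re.tendsto _).comp (gt_tendsto_tr (V := V) (star y * y))
  have h3 : nrm (mkM V y) = (tr (mkM V (star y * y))).re := by
    unfold nrm
    rw [star_mk, ← map_mul]
  rw [h3]
  refine h2.congr fun n => ?_
  have h4 : (star y * y).1 n = (y.1 n).conjTranspose * y.1 n := rfl
  show (ntr ((star y * y).1 n)).re = nn (y.1 n)
  rw [h4, gt_ntr_star_mul, Complex.ofReal_re]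

private lemma gt_smul_mk (c : ℂ) (a : BSeq ι) : c • mkM V a = mkM V (c • a) := rfl

private lemma gt_tracial : GTr (tr : MUlt ι V → ℂ) where
  add a b := by
    obtain ⟨a, rfl⟩ := mkM_surjective a
    obtain ⟨b, rfl⟩ := mkM_surjective b
    rw [← map_add]
    refine tr_mk_eq (((gt_tendsto_tr a).add (gt_tendsto_tr b)).congr fun n => ?_)
    rw [← ntr_add]
    rfl
  smul c a := by
    obtain ⟨a, rfl⟩ := mkM_surjective a
    rw [gt_smul_mk]
    refine tr_mk_eq (((gt_tendsto_tr a).const_mul c).congr fun n => ?_)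
    rw [← ntr_smul]
    rfl
  str a := by
    obtain ⟨a, rfl⟩ := mkM_surjective a
    rw [star_mk]
    have h := (continuous_star.tendsto _).comp (gt_tendsto_tr (V := V) a)
    refine tr_mk_eq (h.congr fun n => ?_)
    show star (ntr (a.1 n)) = ntr (star (a.1 n))
    unfold ntr
    simp [Matrix.star_apply]
  comm a b := by
    obtain ⟨a, rfl⟩ := mkM_surjective a
    obtain ⟨b, rfl⟩ := mkM_surjective b
    rw [← map_mul, ← map_mul]
    refine tr_mk_eq ((gt_tendsto_tr (b * a)).congr fun n => ?_)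
    show ntr (b.1 n * a.1 n) = ntr (a.1 n * b.1 n)
    unfold ntr
    congr 1
    exact Matrix.trace_mul_comm (b.1 n) (a.1 n)
  nonneg y := by
    obtain ⟨y, rfl⟩ := mkM_surjective y
    exact ge_of_tendsto' (gt_tendsto_nn y) fun n => nn_nonneg _
  ssmul c a := by
    obtain ⟨a, rfl⟩ := mkM_surjective a
    rw [gt_smul_mk, star_mk, star_mk, gt_smul_mk]
    congr 1
    apply Subtype.ext
    funext n
    exact Matrix.conjTranspose_smul c (a.1 n)
  bdd y := by
    obtain ⟨y, rfl⟩ := mkM_surjective y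
    obtain ⟨C, hC⟩ := y.2
    refine ⟨C ^ 2, fun A => ?_, fun A => ?_⟩
    · obtain ⟨A, rfl⟩ := mkM_surjective A
      rw [← map_mul]
      refine le_of_tendsto_of_tendsto' (gt_tendsto_nn _) ((gt_tendsto_nn A).const_mul (C ^ 2))
        fun n => ?_
      refine (nn_mul_le_right (A.1 n) (y.1 n)).trans ?_
      have h1 : ‖y.1 n‖ ^ 2 ≤ C ^ 2 := pow_le_pow_left₀ (norm_nonneg _) (hC n) 2
      exact mul_le_mul_of_nonneg_right h1 (nn_nonneg _)
    · obtain ⟨A, rfl⟩ := mkM_surjective A
      rw [← map_mul]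
      refine le_of_tendsto_of_tendsto' (gt_tendsto_nn _) ((gt_tendsto_nn A).const_mul (C ^ 2))
        fun n => ?_
      refine (nn_mul_le_left (y.1 n) (A.1 n)).trans ?_
      have h1 : ‖y.1 n‖ ^ 2 ≤ C ^ 2 := pow_le_pow_left₀ (norm_nonneg _) (hC n) 2
      exact mul_le_mul_of_nonneg_right h1 (nn_nonneg _)

private lemma gt_contr (y : BSeq ι) (hy : ∀ n, ‖y.1 n‖ ≤ 1) :
    (∀ B : MUlt ι V, (tr (star (B * mkM V y) * (B * mkM V y))).re ≤ (tr (star B * B)).re) ∧
      ∀ B : MUlt ι V, (tr (star (mkM V y * B) * (mkM V y * B))).re ≤ (tr (star B * B)).re := by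
  have hy2 : ∀ n, ‖y.1 n‖ ^ 2 ≤ 1 := fun n => pow_le_one₀ (norm_nonneg _) (hy n)
  refine ⟨fun A => ?_, fun A => ?_⟩
  · obtain ⟨A, rfl⟩ := mkM_surjective A
    rw [← map_mul]
    refine le_of_tendsto_of_tendsto' (gt_tendsto_nn _) (gt_tendsto_nn A) fun n => ?_
    refine (nn_mul_le_right (A.1 n) (y.1 n)).trans ?_
    calc _ ≤ 1 * nn (A.1 n) := mul_le_mul_of_nonneg_right (hy2 n) (nn_nonneg _)
      _ = _ := one_mul _
  · obtain ⟨A, rfl⟩ := mkM_surjective A
    rw [← map_mul]
    refine le_of_tendsto_of_tendsto' (gt_tendsto_nn _) (gt_tendsto_nn A) fun n => ?_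
    refine (nn_mul_le_left (y.1 n) (A.1 n)).trans ?_
    calc _ ≤ 1 * nn (A.1 n) := mul_le_mul_of_nonneg_right (hy2 n) (nn_nonneg _)
      _ = _ := one_mul _

/-- evaluation of a sequence -/
private noncomputable def gt_ev (n : ℕ) : BSeq ι →+* Matrix (ι n) (ι n) ℂ where
  toFun x := x.1 n
  map_one' := rfl
  map_mul' _ _ := rfl
  map_zero' := rfl
  map_add' _ _ := rfl

end ult

/-- Property (T) gives the gap hypothesis. -/
theorem gapH_of_propT (G : Type) [Group G] (χ : G → ℂ) (l : ℕ → ℕ) (V : Ultrafilter ℕ)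
    (u : G →* MUlt (fun n => Fin (l n)) V) (π : ∀ n, G → Matrix (Fin (l n)) (Fin (l n)) ℂ)
    (x : G → BSeq (fun n => Fin (l n))) (hπ : ∀ n g, (π n g).conjTranspose * π n g = 1)
    (hxπ : ∀ n g, (x g).1 n = π n g) (hxu : ∀ g, mkM V (x g) = u g) (hA : AHom χ l V π)
    (hT : PropT χ) : ∃ (S : Finset G) (K : ℝ), GapH l V π S K := by
  classical
  obtain ⟨S, K, hT⟩ := hT (1 / (8 * 10 ^ 78)) (by positivity)
  have hu : ∀ g, star (u g) * u g = 1 := by
    intro g
    rw [← hxu g, star_mk, ← map_mul, ← map_one (mkM V)]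
    congr 1
    apply Subtype.ext
    funext n
    show star ((x g).1 n) * (x g).1 n = 1
    rw [hxπ]
    exact hπ n g
  have htr : ∀ g, tr (u g) = χ g := by
    intro g
    rw [← hxu g]
    refine tr_mk_eq ?_
    simp only [hxπ]
    exact hA.tr g
  refine ⟨insert 1 S, max 1 (4 * K), le_max_left _ _, Finset.insert_nonempty _ _, ?_⟩
  intro F hSF k
  by_contra hcon
  have hF : F.Nonempty := ⟨1, hSF (Finset.mem_insert_self _ _)⟩
  set P : ∀ n, Matrix (Fin (l n)) (Fin (l n)) ℂ → Prop := fun n y =>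
    y.conjTranspose = y ∧ ‖y‖ ≤ 1 ∧
      max 1 (4 * K) * En (insert 1 S) (π n) y + 1 / 10 ^ 78 * l n <
        hs (y - (TT F (π n) ^ k) y) with hP
  have hcon2 : ∀ᶠ n in (V : Filter ℕ), ∃ y, P n y := by
    have h1 := Ultrafilter.eventually_not.2 hcon
    filter_upwards [h1] with n hn
    push Not at hn
    exact hn
  set y : ∀ n, Matrix (Fin (l n)) (Fin (l n)) ℂ := fun n =>
    if h : ∃ y, P n y then h.choose else 0 with hy
  have hyP : ∀ n, (∃ y, P n y) → P n (y n) := by
    intro n h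
    have : y n = h.choose := by rw [hy]; simp only [dif_pos h]
    rw [this]
    exact h.choose_spec
  have hy1 : ∀ n, ‖y n‖ ≤ 1 := by
    intro n
    by_cases h : ∃ y, P n y
    · exact (hyP n h).2.1
    · have : y n = 0 := by rw [hy]; simp only [dif_neg h]
      rw [this, norm_zero]
      exact zero_le_one
  set z : BSeq (fun n => Fin (l n)) := (⟨y, 1, hy1⟩ : Bdd (fun n => Fin (l n))) with hz
  have hzv : ∀ n, z.1 n = y n := fun n => rfl
  have hlimA := gt_tendsto_nn (V := V) (z - (gt_T F x)^[k] z)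
  have hmapM : mkM V (z - (gt_T F x)^[k] z) = mkM V z - (gt_T F u)^[k] (mkM V z) := by
    rw [map_sub, gt_map_iter (mkM V) (fun c a => rfl) (fun a => rfl)]
    simp only [hxu]
  rw [hmapM] at hlimA
  have hvalA : ∀ n, (z - (gt_T F x)^[k] z).1 n = y n - (TT F (π n) ^ k) (y n) := by
    intro n
    have h1 : (z - (gt_T F x)^[k] z).1 n = z.1 n - ((gt_T F x)^[k] z).1 n := rfl
    have h2 : ((gt_T F x)^[k] z).1 n = (TT F (π n) ^ k) (z.1 n) := by
      have h3 := gt_map_iter (gt_ev (ι := fun n => Fin (l n)) n) (fun c a => rfl) (fun a => rfl)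
        F x k z
      have h4 : (fun g => gt_ev (ι := fun n => Fin (l n)) n (x g)) = π n := by
        funext g
        exact hxπ n g
      rw [h4, gt_TT] at h3
      exact h3
    rw [h1, h2]
  simp only [hvalA] at hlimA
  have hlimB : Tendsto (fun n => max 1 (4 * K) * ∑ s ∈ insert 1 S,
      nn (π n s * y n - y n * π n s) + 1 / 10 ^ 78) V
      (𝓝 (max 1 (4 * K) * ∑ s ∈ insert 1 S, nrm (u s * mkM V z - mkM V z * u s) +
        1 / 10 ^ 78)) := by
    refine Tendsto.add_const _ (Tendsto.const_mul _ (tendsto_finsetSum _ fun s _ => ?_))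
    have h1 := gt_tendsto_nn (V := V) (x s * z - z * x s)
    rw [map_sub, map_mul, map_mul, hxu] at h1
    refine h1.congr fun n => ?_
    have h2 : (x s * z - z * x s).1 n = π n s * y n - y n * π n s := by
      rw [← hxπ, ← hzv]
      rfl
    rw [h2]
  have hle : max 1 (4 * K) * ∑ s ∈ insert 1 S, nrm (u s * mkM V z - mkM V z * u s) +
        1 / 10 ^ 78 ≤ nrm (mkM V z - (gt_T F u)^[k] (mkM V z)) := by
    refine le_of_tendsto_of_tendsto hlimB hlimA ?_
    filter_upwards [hcon2] with n hn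
    have h1 := (hyP n hn).2.2
    have hl : 0 < (l n : ℝ) := by
      rcases Nat.eq_zero_or_pos (l n) with h0 | h0
      · exfalso
        have : IsEmpty (Fin (l n)) := by rw [h0]; infer_instance
        have h2 : y n - (TT F (π n) ^ k) (y n) = 0 := Subsingleton.elim _ _
        have h0' : (l n : ℝ) = 0 := by exact_mod_cast h0
        rw [h2, hs_zero, h0'] at h1
        have h3 : 0 ≤ En (insert 1 S) (π n) (y n) :=
          Finset.sum_nonneg fun s _ => hs_nonneg _
        have h4 : 0 ≤ max 1 (4 * K) * En (insert 1 S) (π n) (y n) :=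
          mul_nonneg (le_trans zero_le_one (le_max_left _ _)) h3
        rw [mul_zero, add_zero] at h1
        linarith
      · exact_mod_cast h0
    unfold nn
    simp only [Fintype.card_fin]
    rw [← Finset.sum_div, ← mul_div_assoc, div_add' _ _ _ hl.ne', div_le_div_iff_of_pos_right hl]
    unfold En at h1
    exact h1.le
  have hmain := gt_main (A := MUlt (fun n => Fin (l n)) V) hT gt_tracial u hu htr F hF k
    (mkM V z) (gt_contr z hy1)
  have h5 : nrm (mkM V z - (gt_T F u)^[k] (mkM V z)) ≤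
      4 * K * ∑ s ∈ S, nrm (u s * mkM V z - mkM V z * u s) + 4 * (1 / (8 * 10 ^ 78)) := hmain
  have hnn : ∀ a : MUlt (fun n => Fin (l n)) V, 0 ≤ nrm a := fun a => gt_tracial.nonneg a
  have h6 : ∑ s ∈ S, nrm (u s * mkM V z - mkM V z * u s) ≤
      ∑ s ∈ insert 1 S, nrm (u s * mkM V z - mkM V z * u s) :=
    Finset.sum_le_sum_of_subset_of_nonneg (Finset.subset_insert _ _) fun s _ _ => hnn _
  have h7 : 0 ≤ ∑ s ∈ S, nrm (u s * mkM V z - mkM V z * u s) :=
    Finset.sum_nonneg fun s _ => hnn _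
  have h8 : 4 * K * ∑ s ∈ S, nrm (u s * mkM V z - mkM V z * u s) ≤
      max 1 (4 * K) * ∑ s ∈ insert 1 S, nrm (u s * mkM V z - mkM V z * u s) :=
    mul_le_mul (le_max_right _ _) h6 h7 (le_trans zero_le_one (le_max_left _ _))
  have h9 : 4 * (1 / (8 * 10 ^ 78)) < (1 / 10 ^ 78 : ℝ) := by norm_num
  linarith

end Helper85.IE
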