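import Pool.Agent.Helper85.IE.Cut

/-!
# Majorization of the flow functionals (helper85, MP_3dd6d4_an)
-/

set_option autoImplicit false
set_option maxHeartbeats 1000000

open MeasureTheory Real

namespace Helper85.IE

/-- Burkholder's constant -/
noncomputable def a0 (p : ℝ) : ℝ := p ^ (2 - p) * (p - 1) ^ (p - 1)

/-- Burkholder's function -/
noncomputable def UB (p r s : ℝ) : ℝ := ((p - 1) * r - s) * (r + s) ^ (p - 1)

/-- functional of the V-type flow -/
noncomputable def UV (p r s : ℝ) : ℝ :=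
  if r ≤ s then UB p r s else 2 ^ (p - 2) * ((p - 1) * r ^ p - (3 - p) * s ^ p)

/-- functional of the H-type flow -/
noncomputable def UH (p r s : ℝ) : ℝ := UB p r s + (p - 2) * (max (r - s) 0) ^ p

theorem a0_eq (p : ℝ) (hp : 2 < p) : a0 p = p * ((p - 1) / p) ^ (p - 1) := by
  have h0 : 0 < p := by linarith
  rw [a0, div_rpow (by linarith) h0.le, show (2 - p) = 1 - (p - 1) by ring,
    rpow_sub h0, rpow_one]
  ring

theorem a0_ge (p : ℝ) (hp : 2 < p) : 1 ≤ a0 p := by
  have h0 : 0 < p := by linarith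
  rw [a0_eq p hp]
  have h1 := one_add_mul_self_le_rpow_one_add (s := -(1 / p)) (p := p - 1)
    (by rw [neg_le_neg_iff, div_le_one h0]; linarith) (by linarith)
  have h2 : 1 + -(1 / p) = (p - 1) / p := by field_simp; ring
  have h3 : 1 + (p - 1) * -(1 / p) = 1 / p := by field_simp; ring
  rw [h2, h3] at h1
  have h4 := mul_le_mul_of_nonneg_left h1 h0.le
  rwa [mul_one_div_cancel h0.ne'] at h4

theorem a0_pos (p : ℝ) (hp : 2 < p) : 0 < a0 p := by linarith [a0_ge p hp]

/-- the one variable function of Burkholder's inequality -/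
noncomputable def Fb (p x : ℝ) : ℝ :=
  (p - 1) ^ p * x ^ p - (1 - x) ^ p - a0 p * (p * x - 1)

noncomputable def Fb1 (p x : ℝ) : ℝ :=
  p * (p - 1) ^ p * x ^ (p - 1) + p * (1 - x) ^ (p - 1) - a0 p * p

theorem Fb_der (p : ℝ) (hp : 2 < p) (x : ℝ) : HasDerivAt (Fb p) (Fb1 p x) x := by
  have h1 : HasDerivAt (fun x : ℝ => x ^ p) (p * x ^ (p - 1)) x :=
    Real.hasDerivAt_rpow_const (Or.inr (by linarith))
  have h2 : HasDerivAt (fun x : ℝ => (1 - x) ^ p) (-1 * p * (1 - x) ^ (p - 1)) x := by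
    have := (((hasDerivAt_id x).const_sub 1)).rpow_const (p := p) (Or.inr (by linarith))
    simpa using this
  have h3 : HasDerivAt (fun x : ℝ => a0 p * (p * x - 1)) (a0 p * (p * 1)) x :=
    (((hasDerivAt_id x).const_mul p).sub_const 1).const_mul (a0 p)
  have h := ((h1.const_mul ((p - 1) ^ p)).sub h2).sub h3
  have e : (p - 1) ^ p * (p * x ^ (p - 1)) - -1 * p * (1 - x) ^ (p - 1) - a0 p * (p * 1) =
      Fb1 p x := by
    unfold Fb1
    ring
  rw [← e]
  exact h

theorem Fb1_der (p : ℝ) (hp : 2 < p) (x : ℝ) :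
    HasDerivAt (Fb1 p) (p * (p - 1) * ((p - 1) ^ p * x ^ (p - 2) - (1 - x) ^ (p - 2))) x := by
  have h1 : HasDerivAt (fun x : ℝ => x ^ (p - 1)) ((p - 1) * x ^ (p - 1 - 1)) x :=
    Real.hasDerivAt_rpow_const (Or.inr (by linarith))
  have h2 : HasDerivAt (fun x : ℝ => (1 - x) ^ (p - 1)) (-1 * (p - 1) * (1 - x) ^ (p - 1 - 1)) x := by
    have := (((hasDerivAt_id x).const_sub 1)).rpow_const (p := p - 1) (Or.inr (by linarith))
    simpa using this
  have h := ((h1.const_mul (p * (p - 1) ^ p)).add (h2.const_mul p)).sub_const (a0 p * p)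
  rw [show p - 1 - 1 = p - 2 by ring] at h
  have e : p * (p - 1) ^ p * ((p - 1) * x ^ (p - 2)) + p * (-1 * (p - 1) * (1 - x) ^ (p - 2)) =
      p * (p - 1) * ((p - 1) ^ p * x ^ (p - 2) - (1 - x) ^ (p - 2)) := by ring
  rw [← e]
  exact h

theorem Fb_zero (p : ℝ) (hp : 2 < p) : Fb p (1 / p) = 0 := by
  have h0 : 0 < p := by linarith
  have h1 : 0 < p - 1 := by linarith
  rw [Fb, mul_one_div_cancel h0.ne', sub_self, mul_zero, sub_zero]
  have e : 1 - 1 / p = (p - 1) * (1 / p) := by field_simp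
  rw [e, mul_rpow h1.le (by positivity), sub_self]

theorem Fb1_zero (p : ℝ) (hp : 2 < p) : Fb1 p (1 / p) = 0 := by
  have h0 : 0 < p := by linarith
  have h1 : 0 < p - 1 := by linarith
  rw [Fb1, a0_eq p hp]
  have e : 1 - 1 / p = (p - 1) * (1 / p) := by field_simp
  have e2 : (p - 1) / p = (p - 1) * (1 / p) := by ring
  rw [e, e2, mul_rpow h1.le (by positivity)]
  have e3 : (p - 1) ^ p = (p - 1) * (p - 1) ^ (p - 1) := by
    rw [rpow_sub_one h1.ne']
    field_simp
  rw [e3]
  ring

/-- Burkholder's inequality, one variable form -/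
theorem Fb_nonneg (p : ℝ) (hp : 2 < p) (x : ℝ) (hx0 : 0 ≤ x) (hx1 : x ≤ 1) : 0 ≤ Fb p x := by
  have h0 : 0 < p := by linarith
  have h1 : 0 < p - 1 := by linarith
  -- the inflection point
  set A : ℝ := (p - 1) ^ (p / (p - 2)) with hA
  have hA0 : 0 < A := rpow_pos_of_pos h1 _
  have hAp : A ^ (p - 2) = (p - 1) ^ p := by
    rw [hA, ← rpow_mul h1.le]
    congr 1
    have : p - 2 ≠ 0 := by linarith
    field_simp
  -- second derivative sign
  have hpos : ∀ y : ℝ, 0 ≤ y → y ≤ 1 → 1 - y ≤ A * y →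
      0 ≤ p * (p - 1) * ((p - 1) ^ p * y ^ (p - 2) - (1 - y) ^ (p - 2)) := by
    intro y hy0 hy1 hy
    have : (1 - y) ^ (p - 2) ≤ (A * y) ^ (p - 2) :=
      rpow_le_rpow (by linarith) hy (by linarith)
    rw [mul_rpow hA0.le hy0, hAp] at this
    exact mul_nonneg (by positivity) (by linarith)
  have hneg : ∀ y : ℝ, 0 ≤ y → y ≤ 1 → A * y ≤ 1 - y →
      p * (p - 1) * ((p - 1) ^ p * y ^ (p - 2) - (1 - y) ^ (p - 2)) ≤ 0 := by
    intro y hy0 hy1 hy
    have : (A * y) ^ (p - 2) ≤ (1 - y) ^ (p - 2) :=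
      rpow_le_rpow (by positivity) hy (by linarith)
    rw [mul_rpow hA0.le hy0, hAp] at this
    exact mul_nonpos_of_nonneg_of_nonpos (by positivity) (by linarith)
  set x1 : ℝ := 1 / (1 + A) with hx1def
  have hx10 : 0 < x1 := by positivity
  have hx11 : x1 < 1 := by
    rw [hx1def, div_lt_one (by linarith)]
    linarith
  have hx1A : A * x1 = 1 - x1 := by
    rw [hx1def]; field_simp; ring
  have hA1 : p - 1 ≤ A := by
    calc p - 1 = (p - 1) ^ (1 : ℝ) := (rpow_one _).symm
      _ ≤ A := by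
        rw [hA]
        refine rpow_le_rpow_of_exponent_le (by linarith) ?_
        rw [le_div_iff₀ (by linarith)]
        linarith
  have hx1p : x1 ≤ 1 / p := by
    rw [hx1def]
    exact one_div_le_one_div_of_le h0 (by linarith)
  have hp1 : 1 / p < 1 := by
    rw [div_lt_one h0]; linarith
  have hcont : Continuous (Fb p) :=
    continuous_iff_continuousAt.2 fun y => (Fb_der p hp y).continuousAt
  have hcont1 : Continuous (Fb1 p) :=
    continuous_iff_continuousAt.2 fun y => (Fb1_der p hp y).continuousAt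
  -- on [x1,1] Fb1 is monotone
  have hmono : MonotoneOn (Fb1 p) (Set.Icc x1 1) := by
    refine monotoneOn_of_deriv_nonneg (convex_Icc _ _) hcont1.continuousOn
      (fun y _ => (Fb1_der p hp y).differentiableAt.differentiableWithinAt) fun y hy => ?_
    rw [interior_Icc] at hy
    rw [(Fb1_der p hp y).deriv]
    refine hpos y (hx10.le.trans hy.1.le) hy.2.le ?_
    have : A * x1 ≤ A * y := mul_le_mul_of_nonneg_left hy.1.le hA0.le
    linarith [hy.1]
  have hR : ∀ y, x1 ≤ y → y ≤ 1 → 0 ≤ Fb p y := by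
    intro y hy1 hy2
    have hz1 : (1 / p) ∈ Set.Icc x1 1 := ⟨hx1p, hp1.le⟩
    rcases le_total y (1 / p) with hc | hc
    · have hanti : AntitoneOn (Fb p) (Set.Icc x1 (1 / p)) := by
        refine antitoneOn_of_deriv_nonpos (convex_Icc _ _) hcont.continuousOn
          (fun y _ => (Fb_der p hp y).differentiableAt.differentiableWithinAt) fun y hy => ?_
        rw [interior_Icc] at hy
        rw [(Fb_der p hp y).deriv]
        have := hmono ⟨hy.1.le, hy.2.le.trans hp1.le⟩ hz1 hy.2.le
        rwa [Fb1_zero p hp] at this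
      have := hanti ⟨hy1, hc⟩ ⟨hx1p, le_rfl⟩ hc
      rwa [Fb_zero p hp] at this
    · have hmo : MonotoneOn (Fb p) (Set.Icc (1 / p) 1) := by
        refine monotoneOn_of_deriv_nonneg (convex_Icc _ _) hcont.continuousOn
          (fun y _ => (Fb_der p hp y).differentiableAt.differentiableWithinAt) fun y hy => ?_
        rw [interior_Icc] at hy
        rw [(Fb_der p hp y).deriv]
        have := hmono hz1 ⟨hx1p.trans hy.1.le, hy.2.le⟩ hy.1.le
        rwa [Fb1_zero p hp] at this
      have := hmo ⟨le_rfl, hp1.le⟩ ⟨hc, hy2⟩ hc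
      rwa [Fb_zero p hp] at this
  rcases le_total x1 x with hc | hc
  · exact hR x hc hx1
  · -- concave part
    have hconc : ConcaveOn ℝ (Set.Icc 0 x1) (Fb p) := by
      have hanti : AntitoneOn (deriv (Fb p)) (interior (Set.Icc 0 x1)) := by
        have hd : deriv (Fb p) = Fb1 p := by
          funext y; exact (Fb_der p hp y).deriv
        rw [hd]
        have : AntitoneOn (Fb1 p) (Set.Icc 0 x1) := by
          refine antitoneOn_of_deriv_nonpos (convex_Icc _ _) hcont1.continuousOn
            (fun y _ => (Fb1_der p hp y).differentiableAt.differentiableWithinAt) fun y hy => ?_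
          rw [interior_Icc] at hy
          rw [(Fb1_der p hp y).deriv]
          refine hneg y hy.1.le (hy.2.le.trans hx11.le) ?_
          have : A * y ≤ A * x1 := mul_le_mul_of_nonneg_left hy.2.le hA0.le
          linarith [hy.2]
        exact this.mono interior_subset
      exact hanti.concaveOn_of_deriv (convex_Icc _ _) hcont.continuousOn
        (fun y _ => (Fb_der p hp y).differentiableAt.differentiableWithinAt)
    have hF0 : 0 ≤ Fb p 0 := by
      rw [Fb, zero_rpow (by linarith), mul_zero, sub_zero, one_rpow, mul_zero]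
      have := a0_ge p hp
      linarith
    have hF1 : 0 ≤ Fb p x1 := hR x1 le_rfl hx11.le
    have hw : x = (1 - x / x1) * 0 + (x / x1) * x1 := by
      field_simp
      ring
    have hw0 : 0 ≤ x / x1 := by positivity
    have hw1 : x / x1 ≤ 1 := (div_le_one hx10).2 hc
    have := hconc.2 (x := 0) (y := x1) ⟨le_rfl, hx10.le⟩ ⟨hx10.le, le_rfl⟩
      (show 0 ≤ 1 - x / x1 by linarith) hw0 (by ring)
    simp only [smul_eq_mul] at this
    rw [← hw] at this
    refine le_trans ?_ this
    have g1 := mul_nonneg (show 0 ≤ 1 - x / x1 by linarith) hF0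
    have g2 := mul_nonneg hw0 hF1
    linarith

/-- Burkholder's inequality -/
theorem burk (p r s : ℝ) (hp : 2 < p) (hr : 0 ≤ r) (hs : 0 ≤ s) :
    a0 p * UB p r s ≤ (p - 1) ^ p * r ^ p - s ^ p := by
  have h0 : 0 < p := by linarith
  rcases eq_or_lt_of_le (add_nonneg hr hs) with hL | hL
  · have hr0 : r = 0 := by linarith
    have hs0 : s = 0 := by linarith
    rw [UB, hr0, hs0, zero_rpow (by linarith : p ≠ 0)]
    simp
  · set L := r + s with hLdef
    have hx0 : 0 ≤ r / L := by positivity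
    have hx1 : r / L ≤ 1 := (div_le_one hL).2 (by linarith)
    have h := Fb_nonneg p hp (r / L) hx0 hx1
    have hr' : r = r / L * L := by field_simp
    have hs' : s = (1 - r / L) * L := by
      have : (1 - r / L) * L = L - r / L * L := by ring
      rw [this, ← hr', hLdef]
      ring
    have e1 : r ^ p = (r / L) ^ p * L ^ p := by
      rw [← mul_rpow hx0 hL.le, ← hr']
    have e2 : s ^ p = (1 - r / L) ^ p * L ^ p := by
      rw [← mul_rpow (by linarith) hL.le, ← hs']
    have e3 : UB p r s = (p * (r / L) - 1) * L ^ p := by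
      rw [UB, ← hLdef]
      have e4 : L ^ p = L * L ^ (p - 1) := by
        rw [rpow_sub_one hL.ne']
        field_simp
      rw [e4]
      have e5 : ((p - 1) * r - s) = (p * (r / L) - 1) * L := by
        have : (p * (r / L) - 1) * L = p * (r / L * L) - L := by ring
        rw [this, ← hr', hLdef]
        ring
      rw [e5]
      ring
    rw [e1, e2, e3]
    have hLp : 0 < L ^ p := rpow_pos_of_pos hL _
    have := mul_nonneg h hLp.le
    rw [Fb] at this
    nlinarith

theorem UB_diag (p : ℝ) (_hp : 2 < p) : UB p 1 1 = (p - 2) * 2 ^ (p - 1) := by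
  rw [UB, show (1 : ℝ) + 1 = 2 by norm_num]
  ring

theorem two_rpow (p : ℝ) : (2 : ℝ) ^ (p - 1) = 2 * 2 ^ (p - 2) := by
  rw [show p - 1 = 1 + (p - 2) by ring, rpow_add (by norm_num), rpow_one]

/-- majorization, V-type -/
theorem majV (p r s : ℝ) (hp : 2 < p) (_hp3 : p ≤ 3) (hr : 0 ≤ r) (hs : 0 ≤ s) :
    a0 p * UV p r s ≤ (p - 1) ^ p * r ^ p - s ^ p := by
  have h0 : 0 < p := by linarith
  have h1 : 0 < p - 1 := by linarith
  rw [UV]
  split_ifs with hc
  · exact burk p r s hp hr hs
  · push Not at hc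
    have hb := burk p 1 1 hp zero_le_one zero_le_one
    rw [UB_diag p hp, one_rpow, mul_one, two_rpow] at hb
    set κ := a0 p * 2 ^ (p - 2) with hκ
    have hκ1 : κ = (2 / p) ^ (p - 2) * (p - 1) ^ (p - 1) := by
      rw [hκ, a0, div_rpow (by norm_num) h0.le, show (2 - p) = -(p - 2) by ring, rpow_neg h0.le]
      ring
    have hκ0 : κ * (p - 1) ≤ (p - 1) ^ p := by
      have e3 : (p - 1) ^ p = (p - 1) * (p - 1) ^ (p - 1) := by
        rw [rpow_sub_one h1.ne']
        field_simp
      have h2 : (2 / p) ^ (p - 2) ≤ 1 :=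
        rpow_le_one (by positivity) (by rw [div_le_one h0]; linarith) (by linarith)
      have h3 : 0 ≤ (p - 1) ^ (p - 1) := rpow_nonneg h1.le _
      rw [hκ1, e3]
      have := mul_le_mul_of_nonneg_right h2 (mul_nonneg h3 h1.le)
      linarith
    have hκc : 2 * (p - 2) * κ ≤ (p - 1) ^ p - 1 := by
      rw [hκ]; linarith
    have hsr : s ^ p ≤ r ^ p := rpow_le_rpow hs hc.le h0.le
    have hsp : 0 ≤ s ^ p := rpow_nonneg hs _
    have e : a0 p * (2 ^ (p - 2) * ((p - 1) * r ^ p - (3 - p) * s ^ p)) =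
        κ * ((p - 1) * r ^ p - (3 - p) * s ^ p) := by rw [hκ]; ring
    rw [e]
    nlinarith [mul_nonneg (sub_nonneg.2 hκ0) (sub_nonneg.2 hsr),
      mul_nonneg (sub_nonneg.2 hκc) hsp]

/-- one variable function of the H-type majorization -/
noncomputable def Fh (p x : ℝ) : ℝ :=
  (p - 1) ^ p - x ^ p - a0 p * ((p - 1 - x) * (1 + x) ^ (p - 1) + (p - 2) * (1 - x) ^ p)

theorem Fh_der (p : ℝ) (hp : 3 ≤ p) (x : ℝ) (_hx0 : 0 ≤ x) : HasDerivAt (Fh p)
    (-(p * x ^ (p - 1)) - a0 p * ((-1) * (1 + x) ^ (p - 1) +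
      (p - 1 - x) * (1 * (p - 1) * (1 + x) ^ (p - 1 - 1)) +
      (p - 2) * (-1 * p * (1 - x) ^ (p - 1)))) x := by
  have h1 : HasDerivAt (fun x : ℝ => x ^ p) (p * x ^ (p - 1)) x :=
    Real.hasDerivAt_rpow_const (Or.inr (by linarith))
  have h2 : HasDerivAt (fun x : ℝ => (1 - x) ^ p) (-1 * p * (1 - x) ^ (p - 1)) x := by
    have := (((hasDerivAt_id x).const_sub 1)).rpow_const (p := p) (Or.inr (by linarith))
    simpa using this
  have h3 : HasDerivAt (fun x : ℝ => (1 + x) ^ (p - 1)) (1 * (p - 1) * (1 + x) ^ (p - 1 - 1)) x := by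
    have := (((hasDerivAt_id x).const_add 1)).rpow_const (p := p - 1) (Or.inr (by linarith))
    simpa using this
  have h4 : HasDerivAt (fun x : ℝ => p - 1 - x) (-1) x := by
    simpa using (hasDerivAt_id x).const_sub (p - 1)
  have h := (h1.const_sub ((p - 1) ^ p)).sub (((h4.mul h3).add (h2.const_mul (p - 2))).const_mul
    (a0 p))
  exact h

theorem Fh_nonneg (p : ℝ) (hp : 3 ≤ p) (x : ℝ) (hx0 : 0 ≤ x) (hx1 : x ≤ 1) : 0 ≤ Fh p x := by
  have h0 : 0 < p := by linarith
  have ha := a0_pos p (by linarith)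
  have hcont : ContinuousOn (Fh p) (Set.Icc 0 1) :=
    fun y hy => (Fh_der p hp y hy.1).continuousAt.continuousWithinAt
  have hanti : AntitoneOn (Fh p) (Set.Icc 0 1) := by
    refine antitoneOn_of_deriv_nonpos (convex_Icc _ _) hcont
      (fun y hy => ?_) fun y hy => ?_
    · rw [interior_Icc] at hy
      exact (Fh_der p hp y hy.1.le).differentiableAt.differentiableWithinAt
    · rw [interior_Icc] at hy
      rw [(Fh_der p hp y hy.1.le).deriv]
      have hy0 : 0 ≤ y := hy.1.le
      have hy1 : y ≤ 1 := hy.2.le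
      have g1 : 0 ≤ p * y ^ (p - 1) := mul_nonneg h0.le (rpow_nonneg hy0 _)
      have e1 : (1 + y) ^ (p - 1) = (1 + y) * (1 + y) ^ (p - 1 - 1) := by
        rw [rpow_sub_one (by linarith : (1 + y) ≠ 0) (p - 1)]
        have : (1 + y) ≠ 0 := by linarith
        rw [mul_div_assoc', mul_div_cancel_left₀ _ this]
      have g2 : 1 ≤ (1 + y) ^ (p - 1 - 1) := one_le_rpow (by linarith) (by linarith)
      have g3 : (1 - y) ^ (p - 1) ≤ 1 - y := by
        calc (1 - y) ^ (p - 1) ≤ (1 - y) ^ (1 : ℝ) :=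
              rpow_le_rpow_of_exponent_ge' (by linarith) (by linarith) zero_le_one (by linarith)
          _ = 1 - y := rpow_one _
      have g4 : (p - 2) * (1 - y) ^ (p - 1) ≤ (p - 2 - y) * (1 + y) ^ (p - 1 - 1) := by
        calc (p - 2) * (1 - y) ^ (p - 1) ≤ (p - 2) * (1 - y) :=
              mul_le_mul_of_nonneg_left g3 (by linarith)
          _ ≤ (p - 2 - y) * 1 := by nlinarith
          _ ≤ (p - 2 - y) * (1 + y) ^ (p - 1 - 1) :=
              mul_le_mul_of_nonneg_left g2 (by linarith)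
      have e2 : (-1) * (1 + y) ^ (p - 1) +
          (p - 1 - y) * (1 * (p - 1) * (1 + y) ^ (p - 1 - 1)) +
          (p - 2) * (-1 * p * (1 - y) ^ (p - 1)) =
          p * ((p - 2 - y) * (1 + y) ^ (p - 1 - 1) - (p - 2) * (1 - y) ^ (p - 1)) := by
        rw [e1]; ring
      rw [e2]
      have g5 : 0 ≤ a0 p * (p * ((p - 2 - y) * (1 + y) ^ (p - 1 - 1) - (p - 2) * (1 - y) ^ (p - 1))) :=
        mul_nonneg ha.le (mul_nonneg h0.le (by linarith))
      linarith
  have h1 := hanti ⟨hx0, hx1⟩ ⟨zero_le_one, le_rfl⟩ hx1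
  refine le_trans ?_ h1
  have hb := burk p 1 1 (by linarith) zero_le_one zero_le_one
  rw [UB, one_rpow, mul_one, mul_one] at hb
  rw [Fh, one_rpow, sub_self (1 : ℝ), zero_rpow h0.ne', mul_zero, add_zero]
  linarith

/-- majorization, H-type -/
theorem majH (p r s : ℝ) (hp : 3 ≤ p) (hr : 0 ≤ r) (hs : 0 ≤ s) :
    a0 p * UH p r s ≤ (p - 1) ^ p * r ^ p - s ^ p := by
  have h0 : 0 < p := by linarith
  rw [UH]
  rcases le_total r s with hc | hc
  · rw [max_eq_right (by linarith), zero_rpow h0.ne', mul_zero, add_zero]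
    exact burk p r s (by linarith) hr hs
  · rw [max_eq_left (by linarith)]
    rcases eq_or_lt_of_le hr with h | h
    · have hs0 : s = 0 := by linarith
      rw [hs0, ← h, UB]
      simp [zero_rpow h0.ne']
    · have hx0 : 0 ≤ s / r := by positivity
      have hx1 : s / r ≤ 1 := (div_le_one h).2 hc
      have hF := Fh_nonneg p hp (s / r) hx0 hx1
      have hs' : s = s / r * r := by field_simp
      have e1 : s ^ p = (s / r) ^ p * r ^ p := by rw [← mul_rpow hx0 h.le, ← hs']
      have e2 : (r - s) ^ p = (1 - s / r) ^ p * r ^ p := by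
        rw [← mul_rpow (by linarith) h.le]
        congr 1
        rw [sub_mul, ← hs', one_mul]
      have e3 : (r + s) ^ (p - 1) = (1 + s / r) ^ (p - 1) * r ^ (p - 1) := by
        rw [← mul_rpow (by linarith) h.le]
        congr 1
        rw [add_mul, ← hs', one_mul]
      have e4 : r ^ p = r * r ^ (p - 1) := by
        rw [rpow_sub_one h.ne']
        field_simp
      have e5 : (p - 1) * r - s = (p - 1 - s / r) * r := by
        have : (p - 1 - s / r) * r = (p - 1) * r - s / r * r := by ring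
        rw [this, ← hs']
      have e6 : UB p r s = (p - 1 - s / r) * (1 + s / r) ^ (p - 1) * r ^ p := by
        rw [UB, e3, e4, e5]
        ring
      rw [e1, e2, e6]
      have := mul_nonneg hF (rpow_nonneg h.le p)
      rw [Fh] at this
      nlinarith

end Helper85.IE
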