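import Pool.Agent.Helper85.IE.Cut
import Pool.Agent.Helper36.IW_A1
import Pool.Agent.Helper36.IW_A2
import Pool.Agent.Helper42.IW_A3
import Pool.Agent.Helper42.IW_A6
import Pool.Agent.Helper17.IW_A5

/-!
# Regularised primitives of Schwartz functions (helper85, MP_3dd6d4_an)
-/

set_option autoImplicit false
set_option maxSynthPendingDepth 3

open MeasureTheory Complex Filter Topology FourierTransform SchwartzMap
open scoped ENNReal NNReal ComplexConjugate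

noncomputable section

namespace Helper85.IE

open Helper72.BA Helper85.IW

theorem qA1 : StA1 := Helper85.IW.M_A1.main
theorem qA2 : StA2 := Helper85.IW.M_A2.main qA1
theorem qA3 : StA3 := Helper42.IW_A3.main qA1
theorem qA5 : StA5 := Helper85.IW.M_A5.main qA1
theorem qA6 : StA6 := Helper42.IW_A6.main qA1

/-- `1/(1+c²|ξ|²)` -/
def ww (c : ℝ) (ξ : ℂ) : ℝ := (1 + ‖c • ξ‖ ^ 2) ^ (-1 : ℝ)

theorem ww_eq (c : ℝ) (ξ : ℂ) : ww c ξ = (1 + c ^ 2 * ‖ξ‖ ^ 2)⁻¹ := by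
  rw [ww, Real.rpow_neg_one, norm_smul, mul_pow, Real.norm_eq_abs, sq_abs]

theorem ww_nonneg (c : ℝ) (ξ : ℂ) : 0 ≤ ww c ξ := by
  rw [ww_eq]; positivity

theorem ww_le (c : ℝ) (ξ : ℂ) : ww c ξ ≤ 1 := by
  rw [ww_eq]
  refine inv_le_one_of_one_le₀ ?_
  have : 0 ≤ c ^ 2 * ‖ξ‖ ^ 2 := by positivity
  linarith

theorem ww_tg (c : ℝ) : (ww c).HasTemperateGrowth := by
  have h1 := Function.hasTemperateGrowth_one_add_norm_sq_rpow ℂ (-1)
  have h2 : (fun ξ : ℂ => c • ξ).HasTemperateGrowth :=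
    (c • ContinuousLinearMap.id ℝ ℂ).hasTemperateGrowth
  exact h1.comp h2

theorem ww_cont (c : ℝ) : Continuous (ww c) := by
  have : ww c = fun ξ => (1 + c ^ 2 * ‖ξ‖ ^ 2)⁻¹ := by
    funext ξ; exact ww_eq c ξ
  rw [this]
  refine Continuous.inv₀ (by fun_prop) fun ξ => ?_
  positivity

/-- the multiplier of the regularised primitive -/
def mc (c : ℝ) (ξ : ℂ) : ℂ := ((c ^ 2 : ℝ) / (Real.pi * I) : ℂ) * conj ξ * (ww c ξ : ℂ)

theorem mc_tg (c : ℝ) : (mc c).HasTemperateGrowth := by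
  have h1 : (fun ξ : ℂ => conj ξ).HasTemperateGrowth := Complex.conjCLE.hasTemperateGrowth
  have h2 : (fun ξ : ℂ => (ww c ξ : ℂ)).HasTemperateGrowth :=
    (Complex.ofRealCLM).hasTemperateGrowth.comp (ww_tg c)
  have h3 : (fun _ : ℂ => ((c ^ 2 : ℝ) / (Real.pi * I) : ℂ)).HasTemperateGrowth :=
    Function.HasTemperateGrowth.const _
  exact (h3.mul h1).mul h2

/-- the regularised primitive of `f` -/
def ph (c : ℝ) (f : SchwartzMap ℂ ℂ) : SchwartzMap ℂ ℂ :=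
  𝓕⁻ (SchwartzMap.smulLeftCLM ℂ (mc c) (𝓕 f))

theorem gf_ph (c : ℝ) (f : SchwartzMap ℂ ℂ) (ξ : ℂ) : gf (ph c f) ξ = mc c ξ * gf f ξ := by
  rw [Helper42.IW_A6.gf_eq, ph, FourierTransform.fourier_fourierInv_eq,
    SchwartzMap.smulLeftCLM_apply_apply (mc_tg c), Helper42.IW_A6.gf_eq, smul_eq_mul]

/-- linearity of the (time zero) extension -/
theorem HE_lin (g₁ g₂ : ℂ → ℂ) (h₁ : Integrable g₁) (h₂ : Integrable g₂) (a b : ℂ) (z : ℂ) :
    HE (fun ξ => a * g₁ ξ + b * g₂ ξ) 0 z = a * HE g₁ 0 z + b * HE g₂ 0 z := by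
  have hch : Continuous (fun ξ => ch z ξ) := by
    unfold ch
    fun_prop
  have hint : ∀ g : ℂ → ℂ, Integrable g →
      Integrable (fun ξ => ch z ξ * (((Real.exp (-(max 0 0) * ‖ξ‖ ^ 2) : ℝ) : ℂ) * g ξ)) := by
    intro g hg
    refine Integrable.mono hg ?_ (Filter.Eventually.of_forall fun ξ => ?_)
    · refine hch.aestronglyMeasurable.mul ?_
      refine Continuous.aestronglyMeasurable ?_ |>.mul hg.aestronglyMeasurable
      fun_prop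
    · rw [norm_mul, norm_mul, Helper85.IW.M_A2.norm_ch]
      simp
  rw [HE, HE, HE, ← integral_const_mul, ← integral_const_mul,
    ← integral_add ((hint g₁ h₁).const_mul a) ((hint g₂ h₂).const_mul b)]
  refine integral_congr_ae (Filter.Eventually.of_forall fun ξ => ?_)
  simp only
  ring

theorem rap_gf (f : SchwartzMap ℂ ℂ) : Rap (gf f) := (qA6 f).1
theorem rap_gT (f : SchwartzMap ℂ ℂ) : Rap (gT f) := (qA6 f).2.1

theorem int_re (g : ℂ → ℂ) (hg : Rap g) : Integrable (fun ξ => (2 * Real.pi * I * ξ.re) * g ξ) := by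
  refine (qA1.1 _ (qA1.2 g _ hg ?_ ⟨1, 2 * Real.pi, fun ξ => ?_⟩)).1
  · fun_prop
  · rw [norm_mul, norm_mul, norm_mul, Complex.norm_I, Complex.norm_real, Complex.norm_real,
      Complex.norm_two, Real.norm_of_nonneg Real.pi_pos.le, pow_one]
    have h1 := Complex.abs_re_le_norm ξ
    have h2 := Real.pi_pos
    have h3 : ‖ξ.re‖ ≤ 1 + ‖ξ‖ := by rw [Real.norm_eq_abs]; linarith
    rw [mul_one]
    exact mul_le_mul_of_nonneg_left h3 (by positivity)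

theorem int_im (g : ℂ → ℂ) (hg : Rap g) : Integrable (fun ξ => (2 * Real.pi * I * ξ.im) * g ξ) := by
  refine (qA1.1 _ (qA1.2 g _ hg ?_ ⟨1, 2 * Real.pi, fun ξ => ?_⟩)).1
  · fun_prop
  · rw [norm_mul, norm_mul, norm_mul, Complex.norm_I, Complex.norm_real, Complex.norm_real,
      Complex.norm_two, Real.norm_of_nonneg Real.pi_pos.le, pow_one]
    have h1 := Complex.abs_im_le_norm ξ
    have h2 := Real.pi_pos
    have h3 : ‖ξ.im‖ ≤ 1 + ‖ξ‖ := by rw [Real.norm_eq_abs]; linarith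
    rw [mul_one]
    exact mul_le_mul_of_nonneg_left h3 (by positivity)

/-- derivatives of a Schwartz function through its Fourier transform -/
theorem fd_one (φ : SchwartzMap ℂ ℂ) (z : ℂ) :
    fderiv ℝ φ z 1 = HE (fun ξ => (2 * Real.pi * I * ξ.re) * gf φ ξ) 0 z := by
  have h := (qA3 (gf φ) (rap_gf φ) 0 z).1
  have e : HE (gf φ) 0 = φ := by
    funext w; exact (qA6 φ).2.2.2.1 w
  rw [e] at h
  have h2 := (φ.differentiableAt (x := z)).hasFDerivAt.hasLineDerivAt 1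
  exact h2.lineDeriv.symm.trans h.lineDeriv

theorem fd_I (φ : SchwartzMap ℂ ℂ) (z : ℂ) :
    fderiv ℝ φ z I = HE (fun ξ => (2 * Real.pi * I * ξ.im) * gf φ ξ) 0 z := by
  have h := (qA3 (gf φ) (rap_gf φ) 0 z).2
  have e : HE (gf φ) 0 = φ := by
    funext w; exact (qA6 φ).2.2.2.1 w
  rw [e] at h
  have h2 := (φ.differentiableAt (x := z)).hasFDerivAt.hasLineDerivAt I
  exact h2.lineDeriv.symm.trans h.lineDeriv

theorem dz_HE (φ : SchwartzMap ℂ ℂ) (z : ℂ) :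
    dz φ z = HE (fun ξ => (Real.pi * I * conj ξ) * gf φ ξ) 0 z := by
  rw [dz, fd_one, fd_I]
  have h := HE_lin _ _ (int_re _ (rap_gf φ)) (int_im _ (rap_gf φ)) (1 / 2) (-I / 2) z
  have e : (fun ξ => (Real.pi * I * conj ξ) * gf φ ξ) = (fun ξ : ℂ =>
      1 / 2 * ((2 * Real.pi * I * ξ.re) * gf φ ξ) + (-I / 2) * ((2 * Real.pi * I * ξ.im) * gf φ ξ)) := by
    funext ξ
    have : conj ξ = (ξ.re : ℂ) - I * ξ.im := by
      conv_lhs => rw [← Complex.re_add_im ξ]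
      simp [mul_comm]
      ring
    rw [this]
    ring
  rw [e, h]
  ring

theorem dzb_HE (φ : SchwartzMap ℂ ℂ) (z : ℂ) :
    dzb φ z = HE (fun ξ => (Real.pi * I * ξ) * gf φ ξ) 0 z := by
  rw [dzb, fd_one, fd_I]
  have h := HE_lin _ _ (int_re _ (rap_gf φ)) (int_im _ (rap_gf φ)) (1 / 2) (I / 2) z
  have e : (fun ξ => (Real.pi * I * ξ) * gf φ ξ) = (fun ξ : ℂ =>
      1 / 2 * ((2 * Real.pi * I * ξ.re) * gf φ ξ) + (I / 2) * ((2 * Real.pi * I * ξ.im) * gf φ ξ)) := by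
    funext ξ
    have : ξ = (ξ.re : ℂ) + I * ξ.im := by
      conv_lhs => rw [← Complex.re_add_im ξ]
      ring
    conv_lhs => rw [this]
    have e2 : ((ξ.re : ℂ) + I * ξ.im) = ξ := this.symm
    rw [e2]
    conv_lhs => rw [show (Real.pi * I * ξ * gf φ ξ : ℂ) = Real.pi * I * gf φ ξ * ξ by ring]
    conv_lhs => rw [show (Real.pi * I * gf φ ξ * ξ : ℂ) = Real.pi * I * gf φ ξ * (ξ.re + I * ξ.im) by
      rw [e2]]
    ring
  rw [e, h]
  ring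

theorem dzb_ph (c : ℝ) (f : SchwartzMap ℂ ℂ) (z : ℂ) :
    dzb (ph c f) z = HE (fun ξ => ((1 - ww c ξ : ℝ) : ℂ) * gf f ξ) 0 z := by
  rw [dzb_HE]
  congr 1
  funext ξ
  rw [gf_ph, mc, ww_eq]
  have hπ : (Real.pi : ℂ) ≠ 0 := by exact_mod_cast Real.pi_ne_zero
  have h1 : (1 - (1 + c ^ 2 * ‖ξ‖ ^ 2)⁻¹ : ℝ) = c ^ 2 * ‖ξ‖ ^ 2 * (1 + c ^ 2 * ‖ξ‖ ^ 2)⁻¹ := by
    have : (1 + c ^ 2 * ‖ξ‖ ^ 2) ≠ 0 := by positivity
    field_simp
    ring
  rw [h1]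
  have h2 : ξ * conj ξ = ((‖ξ‖ ^ 2 : ℝ) : ℂ) := by
    rw [Complex.mul_conj, Complex.normSq_eq_norm_sq]
  push_cast at h2 ⊢
  rw [← h2]
  field_simp

theorem dz_ph (c : ℝ) (f : SchwartzMap ℂ ℂ) (z : ℂ) :
    dz (ph c f) z = HE (fun ξ => ((1 - ww c ξ : ℝ) : ℂ) * gT f ξ) 0 z := by
  rw [dz_HE]
  congr 1
  funext ξ
  rw [gf_ph, mc, ww_eq]
  have hπ : (Real.pi : ℂ) ≠ 0 := by exact_mod_cast Real.pi_ne_zero
  have h1 : (1 - (1 + c ^ 2 * ‖ξ‖ ^ 2)⁻¹ : ℝ) = c ^ 2 * ‖ξ‖ ^ 2 * (1 + c ^ 2 * ‖ξ‖ ^ 2)⁻¹ := by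
    have : (1 + c ^ 2 * ‖ξ‖ ^ 2) ≠ 0 := by positivity
    field_simp
    ring
  rw [h1]
  have h2 : ξ * conj ξ = ((‖ξ‖ ^ 2 : ℝ) : ℂ) := by
    rw [Complex.mul_conj, Complex.normSq_eq_norm_sq]
  have h3 := (qA6 f).2.2.1 ξ
  push_cast at h2 ⊢
  rw [← h2]
  have h4 : (c ^ 2 * (ξ * conj ξ) * (1 + c ^ 2 * (ξ * conj ξ))⁻¹ * gT f ξ : ℂ) =
      c ^ 2 * conj ξ * (1 + c ^ 2 * (ξ * conj ξ))⁻¹ * (ξ * gT f ξ) := by ring
  rw [h4, h3]
  field_simp

end Helper85.IE
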