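import Pool.Agent.Helper85.IE.Maj

/-!
# From the integral inequality for the functional to the norm inequality (helper85, MP_3dd6d4_an)
-/

set_option autoImplicit false
set_option maxHeartbeats 1000000

open MeasureTheory Real Complex
open scoped ENNReal ContDiff

namespace Helper85.IE

theorem dz_supp (φ : ℂ → ℂ) (hc : HasCompactSupport φ) : HasCompactSupport (dz φ) := by
  have h : HasCompactSupport (fderiv ℝ φ) := hc.fderiv ℝ
  refine h.mono' ?_
  refine fun z hz => ?_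
  refine subset_closure ?_
  intro h0
  apply hz
  simp [dz, h0]

theorem dzb_supp (φ : ℂ → ℂ) (hc : HasCompactSupport φ) : HasCompactSupport (dzb φ) := by
  have h : HasCompactSupport (fderiv ℝ φ) := hc.fderiv ℝ
  refine h.mono' ?_
  refine fun z hz => ?_
  refine subset_closure ?_
  intro h0
  apply hz
  simp [dzb, h0]

theorem int_pow (p : ℝ) (hp : 0 < p) (g : ℂ → ℂ) (hg : Continuous g) (hc : HasCompactSupport g) :
    Integrable (fun z => ‖g z‖ ^ p) := by
  refine Continuous.integrable_of_hasCompactSupport ?_ ?_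
  · exact hg.norm.rpow_const fun z => Or.inr hp.le
  · refine hc.mono' ?_
    intro z hz
    refine subset_closure ?_
    intro h0
    apply hz
    simp [h0, zero_rpow hp.ne']

theorem lint_pow (p : ℝ) (hp : 0 < p) (g : ℂ → ℂ) (hg : Continuous g) (hc : HasCompactSupport g) :
    eLpNorm g (ENNReal.ofReal p) volume = (ENNReal.ofReal (∫ z, ‖g z‖ ^ p)) ^ (1 / p) := by
  have hp1 : ENNReal.ofReal p ≠ 0 := by simpa using hp
  rw [eLpNorm_eq_lintegral_rpow_enorm_toReal hp1 ENNReal.ofReal_ne_top,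
    ENNReal.toReal_ofReal hp.le]
  congr 1
  rw [ofReal_integral_eq_lintegral_ofReal (int_pow p hp g hg hc)
    (Filter.Eventually.of_forall fun z => rpow_nonneg (norm_nonneg _) _)]
  refine lintegral_congr fun z => ?_
  rw [← ofReal_norm, ENNReal.ofReal_rpow_of_nonneg (norm_nonneg _) hp.le]

/-- the norm inequality from the integral inequality -/
theorem hyp_of_int (p : ℝ) (hp : 2 < p) (U : ℝ → ℝ → ℝ)
    (hU : ∀ r s, 0 ≤ r → 0 ≤ s → a0 p * U r s ≤ (p - 1) ^ p * r ^ p - s ^ p)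
    (h : ∀ φ : ℂ → ℂ, ContDiff ℝ ∞ φ → HasCompactSupport φ →
      Integrable (fun z => U ‖dzb φ z‖ ‖dz φ z‖) ∧ 0 ≤ ∫ z, U ‖dzb φ z‖ ‖dz φ z‖) :
    Hyp p (p - 1) := by
  intro φ hφ hc
  have h0 : 0 < p := by linarith
  have h1 : 0 < p - 1 := by linarith
  obtain ⟨hi, hn⟩ := h φ hφ hc
  have i1 := int_pow p h0 (dz φ) (dz_cont φ hφ) (dz_supp φ hc)
  have i2 := int_pow p h0 (dzb φ) (dzb_cont φ hφ) (dzb_supp φ hc)
  have key : ∫ z, ‖dz φ z‖ ^ p ≤ (p - 1) ^ p * ∫ z, ‖dzb φ z‖ ^ p := by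
    have e1 : ∫ z, a0 p * U ‖dzb φ z‖ ‖dz φ z‖ ≤
        ∫ z, ((p - 1) ^ p * ‖dzb φ z‖ ^ p - ‖dz φ z‖ ^ p) := by
      refine integral_mono (hi.const_mul _) ((i2.const_mul _).sub i1) fun z => ?_
      exact hU _ _ (norm_nonneg _) (norm_nonneg _)
    rw [integral_const_mul, integral_sub (i2.const_mul _) i1, integral_const_mul] at e1
    have e2 : 0 ≤ a0 p * ∫ z, U ‖dzb φ z‖ ‖dz φ z‖ := mul_nonneg (a0_pos p hp).le hn
    linarith
  rw [lint_pow p h0 _ (dz_cont φ hφ) (dz_supp φ hc), lint_pow p h0 _ (dzb_cont φ hφ) (dzb_supp φ hc)]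
  have e3 : ENNReal.ofReal (p - 1) = (ENNReal.ofReal ((p - 1) ^ p)) ^ (1 / p) := by
    rw [ENNReal.ofReal_rpow_of_nonneg (rpow_nonneg h1.le _) (by positivity), ← rpow_mul h1.le,
      mul_one_div_cancel h0.ne', rpow_one]
  rw [e3, ← ENNReal.mul_rpow_of_nonneg _ _ (by positivity)]
  refine ENNReal.rpow_le_rpow ?_ (by positivity)
  rw [← ENNReal.ofReal_mul (rpow_nonneg h1.le _)]
  exact ENNReal.ofReal_le_ofReal key

end Helper85.IE
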