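import Pool.Agent.Helper85.IE.VType

/-!
# The box of the V-type certificate from the weight `P` (helper85, MP_3dd6d4_an)
-/

set_option autoImplicit false
set_option maxHeartbeats 1000000

open MeasureTheory intervalIntegral

namespace Helper85.IE

/-- the weight: positive, `P(x)/x` nonincreasing and `x^(1/10) P(x)` nondecreasing -/
structure Wt (P P' : ℝ → ℝ) : Prop where
  cont : ContinuousOn P (Set.Ici 0)
  pos : ∀ x, 0 < x → 0 < P x
  der : ∀ x, 0 < x → HasDerivAt P (P' x) x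
  up : ∀ x, 0 < x → x * P' x ≤ P x
  low : ∀ x, 0 < x → -(P x / 10) ≤ x * P' x

variable {P P' : ℝ → ℝ}

theorem Wt.anti (H : Wt P P') : AntitoneOn (fun x => P x / x) (Set.Ioi 0) := by
  have hd : ∀ x ∈ Set.Ioi (0 : ℝ), HasDerivAt (fun x => P x / x) ((P' x * x - P x * 1) / x ^ 2) x :=
    fun x hx => (H.der x hx).div (hasDerivAt_id x) (ne_of_gt hx)
  refine antitoneOn_of_deriv_nonpos (convex_Ioi 0)
    (fun x hx => (hd x hx).continuousAt.continuousWithinAt) ?_ ?_
  · rw [interior_Ioi]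
    exact fun x hx => (hd x hx).differentiableAt.differentiableWithinAt
  · rw [interior_Ioi]
    intro x hx
    rw [(hd x hx).deriv]
    have := H.up x hx
    exact div_nonpos_of_nonpos_of_nonneg (by linarith) (by positivity)

theorem Wt.mono (H : Wt P P') : MonotoneOn (fun x => x ^ (1 / 10 : ℝ) * P x) (Set.Ioi 0) := by
  have hd : ∀ x ∈ Set.Ioi (0 : ℝ), HasDerivAt (fun x => x ^ (1 / 10 : ℝ) * P x)
      ((1 / 10 : ℝ) * x ^ ((1 / 10 : ℝ) - 1) * P x + x ^ (1 / 10 : ℝ) * P' x) x :=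
    fun x hx => (Real.hasDerivAt_rpow_const (Or.inl (ne_of_gt hx))).mul (H.der x hx)
  refine monotoneOn_of_deriv_nonneg (convex_Ioi 0)
    (fun x hx => (hd x hx).continuousAt.continuousWithinAt) ?_ ?_
  · rw [interior_Ioi]
    exact fun x hx => (hd x hx).differentiableAt.differentiableWithinAt
  · rw [interior_Ioi]
    intro x hx
    have hx0 : (0 : ℝ) < x := hx
    rw [(hd x hx).deriv]
    have h1 : x ^ (1 / 10 : ℝ) = x ^ ((1 / 10 : ℝ) - 1) * x := by
      rw [Real.rpow_sub_one hx0.ne']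
      field_simp
    have h2 : 0 ≤ x ^ ((1 / 10 : ℝ) - 1) := Real.rpow_nonneg hx0.le _
    have e : (1 / 10 : ℝ) * x ^ ((1 / 10 : ℝ) - 1) * P x + x ^ (1 / 10 : ℝ) * P' x =
        x ^ ((1 / 10 : ℝ) - 1) * (P x / 10 + x * P' x) := by
      rw [h1]; ring
    rw [e]
    have := H.low x hx0
    exact mul_nonneg h2 (by linarith)

theorem Wt.le1 (H : Wt P P') {x y : ℝ} (hx : 0 < x) (hxy : x ≤ y) : P y ≤ P x * (y / x) := by
  have hy : 0 < y := hx.trans_le hxy
  have h : P y / y ≤ P x / x := H.anti (Set.mem_Ioi.2 hx) (Set.mem_Ioi.2 hy) hxy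
  rw [div_le_div_iff₀ hy hx] at h
  rw [← mul_div_assoc, le_div_iff₀ hx]
  exact h

theorem Wt.le2 (H : Wt P P') {x y : ℝ} (hx : 0 < x) (hxy : x ≤ y) :
    P x * (x / y) ^ (1 / 10 : ℝ) ≤ P y := by
  have hy : 0 < y := hx.trans_le hxy
  have h : x ^ (1 / 10 : ℝ) * P x ≤ y ^ (1 / 10 : ℝ) * P y :=
    H.mono (Set.mem_Ioi.2 hx) (Set.mem_Ioi.2 hy) hxy
  rw [Real.div_rpow hx.le hy.le, ← mul_div_assoc, div_le_iff₀ (Real.rpow_pos_of_pos hy _)]
  linarith

theorem Wt.le3 (H : Wt P P') {x y : ℝ} (hx : 0 < x) (hxy : x ≤ y) :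
    P x * (x / y) ≤ P y := by
  have hy : 0 < y := hx.trans_le hxy
  refine le_trans (mul_le_mul_of_nonneg_left ?_ (H.pos x hx).le) (H.le2 hx hxy)
  have h1 : x / y ≤ 1 := (div_le_one hy).2 hxy
  have h0 : 0 < x / y := div_pos hx hy
  calc x / y = (x / y) ^ (1 : ℝ) := (Real.rpow_one _).symm
    _ ≤ (x / y) ^ (1 / 10 : ℝ) := Real.rpow_le_rpow_of_exponent_ge h0 h1 (by norm_num)

theorem int_inv_sq {s r : ℝ} (hs : 0 < s) (hr : s ≤ r) (c : ℝ) :
    ∫ x in s..r, c * (x ^ 2)⁻¹ = c * (1 / s - 1 / r) := by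
  have hr0 : 0 < r := hs.trans_le hr
  rw [intervalIntegral.integral_const_mul]
  congr 1
  have hmem : ∀ x ∈ Set.uIcc s r, 0 < x := by
    intro x hx
    rw [Set.uIcc_of_le hr] at hx
    exact hs.trans_le hx.1
  have hd : ∀ x ∈ Set.uIcc s r, HasDerivAt (fun x : ℝ => -x⁻¹) ((x ^ 2)⁻¹) x := by
    intro x hx
    have h := (hasDerivAt_inv (hmem x hx).ne').neg
    rw [neg_neg] at h
    exact h
  rw [integral_eq_sub_of_hasDerivAt hd]
  · simp only [one_div]
    ring
  · refine ContinuousOn.intervalIntegrable ?_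
    refine ContinuousOn.inv₀ (by fun_prop) fun x hx => ?_
    have := hmem x hx
    positivity

theorem Wt.ii (H : Wt P P') {s r : ℝ} (hs : 0 < s) (hr : s ≤ r) :
    IntervalIntegrable (fun x => P x / x) volume s r := by
  refine ContinuousOn.intervalIntegrable ?_
  have hsub : Set.uIcc s r ⊆ Set.Ici 0 := by
    rw [Set.uIcc_of_le hr]
    exact fun x hx => hs.le.trans hx.1
  refine (H.cont.mono hsub).div (by fun_prop) fun x hx => ?_
  rw [Set.uIcc_of_le hr] at hx
  exact (hs.trans_le hx.1).ne'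

theorem Wt.ii0 (H : Wt P P') {s : ℝ} (hs : 0 < s) :
    IntervalIntegrable P volume 0 s := by
  refine ContinuousOn.intervalIntegrable ?_
  refine H.cont.mono ?_
  rw [Set.uIcc_of_le hs.le]
  exact fun x hx => hx.1

theorem Wt.iisq {s r : ℝ} (hs : 0 < s) (hr : s ≤ r) (c : ℝ) :
    IntervalIntegrable (fun x : ℝ => c * (x ^ 2)⁻¹) volume s r := by
  refine ContinuousOn.intervalIntegrable ?_
  refine ContinuousOn.mul continuousOn_const (ContinuousOn.inv₀ (by fun_prop) fun x hx => ?_)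
  rw [Set.uIcc_of_le hr] at hx
  have := hs.trans_le hx.1
  positivity

theorem Wt.D_low (H : Wt P P') {s r : ℝ} (hs : 0 < s) (hr : s ≤ r) :
    P s * (1 - s / r) ≤ ∫ x in s..r, P x / x := by
  have hr0 : 0 < r := hs.trans_le hr
  have h1 : ∫ x in s..r, (P s * s) * (x ^ 2)⁻¹ ≤ ∫ x in s..r, P x / x := by
    refine integral_mono_on hr (Wt.iisq hs hr _) (H.ii hs hr) fun x hx => ?_
    have hx0 : 0 < x := hs.trans_le hx.1
    have h := H.le3 hs hx.1
    rw [le_div_iff₀ hx0]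
    calc P s * s * (x ^ 2)⁻¹ * x = P s * (s / x) := by field_simp
      _ ≤ P x := h
  rw [int_inv_sq hs hr] at h1
  refine le_trans (le_of_eq ?_) h1
  field_simp

theorem Wt.D_up1 (H : Wt P P') {s r : ℝ} (hs : 0 < s) (hr : s ≤ r) :
    ∫ x in s..r, P x / x ≤ (r - s) * (P s / s) := by
  have h1 : ∫ x in s..r, P x / x ≤ ∫ _x in s..r, P s / s := by
    refine integral_mono_on hr (H.ii hs hr) intervalIntegrable_const fun x hx => ?_
    exact H.anti (Set.mem_Ioi.2 hs) (Set.mem_Ioi.2 (hs.trans_le hx.1)) hx.1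
  rwa [intervalIntegral.integral_const, smul_eq_mul] at h1

theorem Wt.D_up2 (H : Wt P P') {s r : ℝ} (hs : 0 < s) (hr : s ≤ r) :
    ∫ x in s..r, P x / x ≤ P r * (r / s - 1) := by
  have hr0 : 0 < r := hs.trans_le hr
  have h1 : ∫ x in s..r, P x / x ≤ ∫ x in s..r, (P r * r) * (x ^ 2)⁻¹ := by
    refine integral_mono_on hr (H.ii hs hr) (Wt.iisq hs hr _) fun x hx => ?_
    have hx0 : 0 < x := hs.trans_le hx.1
    have h := H.le3 hx0 hx.2
    rw [div_le_iff₀ hx0]
    have h2 : P x ≤ P r * (r / x) := by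
      rw [← mul_div_assoc, le_div_iff₀ hx0]
      rw [← mul_div_assoc, div_le_iff₀ hr0] at h
      exact h
    calc P x ≤ P r * (r / x) := h2
      _ = P r * r * (x ^ 2)⁻¹ * x := by field_simp
  rw [int_inv_sq hs hr] at h1
  refine le_trans h1 (le_of_eq ?_)
  field_simp

theorem Wt.A_low (H : Wt P P') {s : ℝ} (hs : 0 < s) :
    s * P s / 2 ≤ ∫ x in (0 : ℝ)..s, P x := by
  have h1 : ∫ x in (0 : ℝ)..s, P s / s * x ≤ ∫ x in (0 : ℝ)..s, P x := by
    refine integral_mono_on_of_le_Ioo hs.le ?_ (H.ii0 hs) fun x hx => ?_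
    · exact (continuous_const.mul continuous_id).intervalIntegrable _ _
    · have h : P s / s ≤ P x / x := H.anti (Set.mem_Ioi.2 hx.1) (Set.mem_Ioi.2 hs) hx.2.le
      calc P s / s * x ≤ P x / x * x := mul_le_mul_of_nonneg_right h hx.1.le
        _ = P x := by field_simp [hx.1.ne']
  rw [intervalIntegral.integral_const_mul, integral_id] at h1
  refine le_trans (le_of_eq ?_) h1
  field_simp
  ring

theorem Wt.A_up (H : Wt P P') {s : ℝ} (hs : 0 < s) :
    ∫ x in (0 : ℝ)..s, P x ≤ 10 / 9 * (s * P s) := by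
  have hr : IntervalIntegrable (fun x : ℝ => x ^ (-(1 / 10) : ℝ)) volume 0 s :=
    intervalIntegral.intervalIntegrable_rpow' (by norm_num)
  have h1 : ∫ x in (0 : ℝ)..s, P x ≤
      ∫ x in (0 : ℝ)..s, (P s * s ^ (1 / 10 : ℝ)) * x ^ (-(1 / 10) : ℝ) := by
    refine integral_mono_on_of_le_Ioo hs.le (H.ii0 hs) (hr.const_mul _) fun x hx => ?_
    have h := H.le2 hx.1 hx.2.le
    rw [Real.div_rpow hx.1.le hs.le, ← mul_div_assoc,
      div_le_iff₀ (Real.rpow_pos_of_pos hs _)] at h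
    rw [Real.rpow_neg hx.1.le, ← div_eq_mul_inv, le_div_iff₀ (Real.rpow_pos_of_pos hx.1 _)]
    exact h
  rw [intervalIntegral.integral_const_mul, integral_rpow (Or.inl (by norm_num))] at h1
  refine le_trans h1 (le_of_eq ?_)
  have e : s ^ (1 / 10 : ℝ) * s ^ (-(1 / 10) + 1 : ℝ) = s := by
    rw [← Real.rpow_add hs]
    norm_num
  have e0 : (0 : ℝ) ^ (-(1 / 10) + 1 : ℝ) = 0 := Real.zero_rpow (by norm_num)
  rw [e0, sub_zero]
  calc P s * s ^ (1 / 10 : ℝ) * (s ^ (-(1 / 10) + 1 : ℝ) / (-(1 / 10) + 1 : ℝ)) =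
      P s * (s ^ (1 / 10 : ℝ) * s ^ (-(1 / 10) + 1 : ℝ)) / (9 / 10) := by
        norm_num
        ring
    _ = 10 / 9 * (s * P s) := by rw [e]; ring

/-- the box of the V-type certificate -/
theorem Wt.vbox (H : Wt P P') {s r : ℝ} (hs : 0 < s) (hr : s ≤ r) :
    VBox (s / r) (1 - s / r) ((∫ x in s..r, P x / x) / P s) (P r / P s)
      (2 * (∫ x in (0 : ℝ)..s, P x) / (s * P s) - 1) (s * P' s / P s) := by
  have hr0 : 0 < r := hs.trans_le hr
  have hPs := H.pos s hs
  have hPr := H.pos r hr0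
  have ht0 : 0 < s / r := div_pos hs hr0
  have ht1 : s / r ≤ 1 := (div_le_one hr0).2 hr
  have hsr : s / r * (r / s) = 1 := by field_simp
  refine ⟨ht0.le, ht1, rfl, ?_, ?_, ?_, div_pos hPr hPs, ?_, ?_, ?_, ?_, ?_, ?_, ?_⟩
  · rw [le_div_iff₀ hPs]
    have := H.D_low hs hr
    linarith
  · rw [← mul_div_assoc, div_le_iff₀ hPs]
    have := mul_le_mul_of_nonneg_left (H.D_up1 hs hr) ht0.le
    refine this.trans (le_of_eq ?_)
    field_simp
  · rw [← mul_div_assoc, div_le_iff₀ hPs]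
    have := mul_le_mul_of_nonneg_left (H.D_up2 hs hr) ht0.le
    refine this.trans (le_of_eq ?_)
    field_simp
  · rw [le_div_iff₀ hPs]
    have := H.le3 hs hr
    linarith
  · have h1 : (s / r) ^ (1 / 10 : ℝ) ≤ P r / P s := by
      rw [le_div_iff₀ hPs]
      have := H.le2 hs hr
      linarith
    have h2 : 1 + 1 / 10 * Real.log (s / r) ≤ (s / r) ^ (1 / 10 : ℝ) := by
      rw [Real.rpow_def_of_pos ht0]
      have := Real.add_one_le_exp (Real.log (s / r) * (1 / 10))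
      linarith
    have h3 : 1 - (s / r)⁻¹ ≤ Real.log (s / r) := Real.one_sub_inv_le_log_of_pos ht0
    have h4 : s / r * (1 - (s / r)⁻¹) ≤ s / r * Real.log (s / r) :=
      mul_le_mul_of_nonneg_left h3 ht0.le
    have h5 : s / r * (1 - (s / r)⁻¹) = s / r - 1 := by
      rw [mul_sub, mul_inv_cancel₀ ht0.ne', mul_one]
    have h6 : s / r * (1 + 1 / 10 * Real.log (s / r)) ≤ s / r * (P r / P s) :=
      mul_le_mul_of_nonneg_left (h2.trans h1) ht0.le
    nlinarith
  · have h1 : P r / P s ≤ r / s := by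
      rw [div_le_iff₀ hPs]
      have := H.le1 hs hr
      linarith
    have h2 := mul_le_mul_of_nonneg_left h1 ht0.le
    nlinarith
  · have h1 := H.A_low hs
    have h2 : 1 ≤ 2 * (∫ x in (0 : ℝ)..s, P x) / (s * P s) := by
      rw [le_div_iff₀ (by positivity)]
      linarith
    linarith
  · have h1 := H.A_up hs
    have h2 : 2 * (∫ x in (0 : ℝ)..s, P x) / (s * P s) ≤ 9 / 4 := by
      rw [div_le_iff₀ (by positivity)]
      have : 0 < s * P s := by positivity
      linarith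
    linarith
  · rw [le_div_iff₀ hPs]
    have := H.low s hs
    linarith
  · rw [div_le_one hPs]
    exact H.up s hs

end Helper85.IE
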