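import Mathlib

/-!
# V-type certificate: the two 3x3 forms are nonnegative (helper85, MP_3dd6d4_an)

Notation of `MP_3dd6d4-iwaniec-flow.md`, section 3b: `t = s/r`, `h = 1 - t`,
`D = (∫_s^r P/x)/P(s)`, `θ = P(r)/P(s)`, `γ = 2A(s)/(sP(s)) - 1`, `l = sP'(s)/P(s)`.
-/

set_option autoImplicit false
set_option maxHeartbeats 1000000

namespace Helper85.IE

/-- hypotheses of the box -/
structure VBox (t h D θ γ l : ℝ) : Prop where
  ht0 : 0 ≤ t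
  ht1 : t ≤ 1
  hh : h = 1 - t
  hD : h ≤ D
  hD1 : t * D ≤ h
  hD2 : t * D ≤ h * θ
  hθ0 : 0 < θ
  hθ : t ≤ θ
  hτ0 : -(h / 10) ≤ t * (θ - 1)
  hτ1 : t * (θ - 1) ≤ h
  hγ0 : 0 ≤ γ
  hγ1 : γ ≤ 5 / 4
  hl0 : -(1 / 10) ≤ l
  hl1 : l ≤ 1

/-- two variable form from its discriminant -/
theorem quad2 (a b c x y : ℝ) (ha : 0 ≤ a) (hc : 0 ≤ c) (h : b ^ 2 ≤ 4 * a * c) :
    0 ≤ a * x ^ 2 + b * (x * y) + c * y ^ 2 := by
  rcases eq_or_lt_of_le ha with h0 | h0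
  · have hb : b = 0 := by
      rw [← h0] at h
      nlinarith [sq_nonneg b]
    rw [← h0, hb]
    nlinarith [mul_nonneg hc (sq_nonneg y)]
  · have h1 : 0 ≤ 4 * a * (a * x ^ 2 + b * (x * y) + c * y ^ 2) := by
      have e : 4 * a * (a * x ^ 2 + b * (x * y) + c * y ^ 2) =
        (2 * a * x + b * y) ^ 2 + (4 * a * c - b ^ 2) * y ^ 2 := by ring
      rw [e]
      have := mul_nonneg (sub_nonneg.2 h) (sq_nonneg y)
      have := sq_nonneg (2 * a * x + b * y)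
      linarith
    exact nonneg_of_mul_nonneg_right h1 (by linarith)

theorem vminus_K2 (t h γ l : ℝ) (ht0 : 0 ≤ t) (ht1 : t ≤ 1) (hh : h = 1 - t) (hγ0 : 0 ≤ γ)
    (hγ1 : γ ≤ 5 / 4) (hl0 : -(1 / 10) ≤ l) (hl1 : l ≤ 1) :
    26 / 25 + 7 / 15 * γ ≤ 2 + (3 - t) * γ + h * (1 - l) - h * (3 + 2 * γ - l) ^ 2 / 6 := by
  have hh0 : 0 ≤ h := by linarith
  have hh1 : h ≤ 1 := by linarith
  have h1 : (3 + 2 * γ - l) ^ 2 ≤ 38 / 5 * (3 + 2 * γ - l) - 56 / 5 := by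
    have : 0 ≤ (3 + 2 * γ - l - 2) * (28 / 5 - (3 + 2 * γ - l)) :=
      mul_nonneg (by linarith) (by linarith)
    nlinarith
  have h2 : h * (3 + 2 * γ - l) ^ 2 / 6 ≤ h * (38 / 5 * (3 + 2 * γ - l) - 56 / 5) / 6 := by
    have := mul_le_mul_of_nonneg_left h1 hh0
    linarith
  have h3 : t = 1 - h := by linarith
  subst h3
  nlinarith [mul_nonneg hh0 hγ0, mul_nonneg hh0 (by linarith : 0 ≤ l + 1 / 10),
    mul_nonneg (by linarith : 0 ≤ 1 - h) hγ0]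

theorem hs_le (t h γ : ℝ) (ht0 : 0 ≤ t) (ht1 : t ≤ 1) (hh : h = 1 - t)
    (hγ1 : γ ≤ 5 / 4) : h * (1 / 10 + γ * t) ≤ 33 / 80 := by
  have hh0 : 0 ≤ h := by linarith
  have h5 : h * t ≤ 1 / 4 := by rw [hh]; nlinarith [sq_nonneg (t - 1 / 2)]
  have h6 : γ * (h * t) ≤ 5 / 4 * (1 / 4) :=
    mul_le_mul hγ1 h5 (mul_nonneg hh0 ht0) (by norm_num)
  nlinarith

theorem vminus_C (t h θ γ C : ℝ) (ht0 : 0 ≤ t) (ht1 : t ≤ 1) (hh : h = 1 - t) (hγ0 : 0 ≤ γ)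
    (hγ1 : γ ≤ 5 / 4) (hθ0 : 0 < θ) (hθ : t ≤ θ) (hτ0 : -(h / 10) ≤ t * (θ - 1))
    (hτ1 : t * (θ - 1) ≤ h) (hC : C = t * (θ - 1) - h * γ * t) :
    C ^ 2 ≤ h * θ := by
  have hh0 : 0 ≤ h := by linarith
  have hh1 : h ≤ 1 := by linarith
  have hγt : 0 ≤ γ * t := mul_nonneg hγ0 ht0
  have hγt1 : γ * t ≤ 5 / 4 := by
    calc γ * t ≤ 5 / 4 * 1 := mul_le_mul hγ1 ht1 ht0 (by norm_num)
      _ = 5 / 4 := by norm_num
  have hs := hs_le t h γ ht0 ht1 hh hγ1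
  have hC1 : -(h * (1 / 10 + γ * t)) ≤ C := by rw [hC]; nlinarith
  have hs0 : 0 ≤ h * (1 / 10 + γ * t) := mul_nonneg hh0 (by linarith)
  rcases le_total 1 θ with hc | hc
  · have hC2 : C ≤ h := by
      have : 0 ≤ h * γ * t := by positivity
      linarith
    have h1 : C ^ 2 ≤ h * 1 := by
      rcases le_total 0 C with h0 | h0
      · calc C ^ 2 = C * C := sq C
          _ ≤ h * h := mul_le_mul hC2 hC2 h0 hh0
          _ ≤ h * 1 := mul_le_mul_of_nonneg_left hh1 hh0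
      · have h2 : (-C) * (-C) ≤ (h * (1 / 10 + γ * t)) * (h * (1 / 10 + γ * t)) :=
          mul_le_mul (by linarith) (by linarith) (by linarith) hs0
        have h3 : (h * (1 / 10 + γ * t)) * (1 / 10 + γ * t) ≤ 33 / 80 * (27 / 20) :=
          mul_le_mul hs (by linarith) (by linarith) (by norm_num)
        have h4 : h * ((h * (1 / 10 + γ * t)) * (1 / 10 + γ * t)) ≤ h * 1 :=
          mul_le_mul_of_nonneg_left (by linarith) hh0
        nlinarith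
    exact h1.trans (mul_le_mul_of_nonneg_left hc hh0)
  · have h2 : -(θ * h * (1 + γ)) ≤ C := by
      have e1 : t * (1 - θ) ≤ t * h := mul_le_mul_of_nonneg_left (by linarith) ht0
      have e2 : t * (h * (1 + γ)) ≤ θ * (h * (1 + γ)) :=
        mul_le_mul_of_nonneg_right hθ (mul_nonneg hh0 (by linarith))
      rw [hC]; nlinarith
    have h3 : C ≤ 0 := by
      have e1 : 0 ≤ h * γ * t := by positivity
      have e2 : t * (θ - 1) ≤ 0 := mul_nonpos_of_nonneg_of_nonpos ht0 (by linarith)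
      linarith
    have h4 : (-C) * (-C) ≤ (h * (1 / 10 + γ * t)) * (θ * h * (1 + γ)) :=
      mul_le_mul (by linarith) (by linarith) (by linarith) hs0
    have h5 : (h * (1 / 10 + γ * t)) * (1 + γ) ≤ 33 / 80 * (9 / 4) :=
      mul_le_mul hs (by linarith) (by linarith) (by norm_num)
    have h6 : (θ * h) * ((h * (1 / 10 + γ * t)) * (1 + γ)) ≤ (θ * h) * 1 :=
      mul_le_mul_of_nonneg_left (by linarith) (by positivity)
    nlinarith

/-- the minus form of the V-type certificate is nonnegative -/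
theorem vminus (t h D θ γ l : ℝ) (H : VBox t h D θ γ l) (X x ψ : ℝ) :
    0 ≤ D * X ^ 2 - D * t * X * (x - ψ) + h * (θ * x ^ 2 + X ^ 2)
      - h * (3 + 2 * γ - l) * X * ψ + t * (θ - 1 - γ * h) * x * ψ
      + (2 + (3 - t) * γ + h * (1 - l)) * ψ ^ 2 := by
  obtain ⟨ht0, ht1, hh, hD, hD1, hD2, hθ0, hθ, hτ0, hτ1, hγ0, hγ1, hl0, hl1⟩ := H
  have hh0 : 0 ≤ h := by linarith
  have hh1 : h ≤ 1 := by linarith
  have hK := vminus_K2 t h γ l ht0 ht1 hh hγ0 hγ1 hl0 hl1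
  have hC2 := vminus_C t h θ γ (t * (θ - 1) - h * γ * t) ht0 ht1 hh hγ0 hγ1 hθ0 hθ hτ0 hτ1 rfl
  have hE0 : 0 ≤ t * D := mul_nonneg ht0 (by linarith)
  -- first piece
  have p1 : 0 ≤ (h / 2) * X ^ 2 + (-(t * D)) * (X * x) + (h * θ / 2) * x ^ 2 := by
    refine quad2 _ _ _ _ _ (by linarith) (by positivity) ?_
    have := mul_le_mul hD1 hD2 hE0 hh0
    nlinarith
  -- second piece
  have p2 : 0 ≤ (3 * h / 2) * X ^ 2 + (-(h * (3 + 2 * γ - l) - t * D)) * (X * ψ) +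
      (h * (3 + 2 * γ - l) ^ 2 / 6) * ψ ^ 2 := by
    refine quad2 _ _ _ _ _ (by linarith) (by positivity) ?_
    have hb2 : h * 1 ≤ h * (3 + 2 * γ - l) := mul_le_mul_of_nonneg_left (by linarith) hh0
    have h1 : 0 ≤ h * (3 + 2 * γ - l) - t * D := by linarith
    have h2 : h * (3 + 2 * γ - l) - t * D ≤ h * (3 + 2 * γ - l) := by linarith
    have h3 := mul_le_mul h2 h2 h1 (by linarith : 0 ≤ h * (3 + 2 * γ - l))
    have e1 : (-(h * (3 + 2 * γ - l) - t * D)) ^ 2 =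
      (h * (3 + 2 * γ - l) - t * D) * (h * (3 + 2 * γ - l) - t * D) := by ring
    have e2 : 4 * (3 * h / 2) * (h * (3 + 2 * γ - l) ^ 2 / 6) =
      (h * (3 + 2 * γ - l)) * (h * (3 + 2 * γ - l)) := by ring
    rw [e1, e2]
    exact h3
  -- third piece
  have hK0 : 26 / 25 ≤ 2 + (3 - t) * γ + h * (1 - l) - h * (3 + 2 * γ - l) ^ 2 / 6 := by
    have : 0 ≤ 7 / 15 * γ := by positivity
    linarith
  have p3 : 0 ≤ (h * θ / 2) * x ^ 2 + (t * (θ - 1) - h * γ * t) * (x * ψ) +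
      (2 + (3 - t) * γ + h * (1 - l) - h * (3 + 2 * γ - l) ^ 2 / 6) * ψ ^ 2 := by
    refine quad2 _ _ _ _ _ (by positivity) (by linarith) ?_
    have h1 : 0 ≤ h * θ := by positivity
    have h2 := mul_le_mul_of_nonneg_left hK0 h1
    nlinarith
  have p4 : 0 ≤ (D - h) * X ^ 2 := mul_nonneg (by linarith) (sq_nonneg _)
  have e : D * X ^ 2 - D * t * X * (x - ψ) + h * (θ * x ^ 2 + X ^ 2)
      - h * (3 + 2 * γ - l) * X * ψ + t * (θ - 1 - γ * h) * x * ψ +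
      (2 + (3 - t) * γ + h * (1 - l)) * ψ ^ 2 =
      ((h / 2) * X ^ 2 + (-(t * D)) * (X * x) + (h * θ / 2) * x ^ 2) +
      ((3 * h / 2) * X ^ 2 + (-(h * (3 + 2 * γ - l) - t * D)) * (X * ψ) +
        (h * (3 + 2 * γ - l) ^ 2 / 6) * ψ ^ 2) +
      ((h * θ / 2) * x ^ 2 + (t * (θ - 1) - h * γ * t) * (x * ψ) +
        (2 + (3 - t) * γ + h * (1 - l) - h * (3 + 2 * γ - l) ^ 2 / 6) * ψ ^ 2) +
      (D - h) * X ^ 2 := by
    ring
  rw [e]
  linarith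

theorem vplus_w (h γ l e : ℝ) (hh1 : h ≤ 1) (hγ0 : 0 ≤ γ)
    (hγ1 : γ ≤ 5 / 4) (hl0 : -(1 / 10) ≤ l) (hl1 : l ≤ 1) (he0 : 0 ≤ e) (he1 : e ≤ 1) :
    4 / 5 ≤ 2 + γ - e - h * (2 * γ - 1 - l + e) ^ 2 / 6 := by
  have h1 : h * (2 * γ - 1 - l + e) ^ 2 ≤ 1 * (2 * γ - 1 - l + e) ^ 2 :=
    mul_le_mul_of_nonneg_right hh1 (sq_nonneg _)
  have a1 := mul_nonneg hγ0 (sub_nonneg.2 hγ1)
  have a2 := mul_nonneg (by linarith : 0 ≤ l + 1 / 10) (sub_nonneg.2 hl1)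
  have a3 := mul_nonneg he0 (sub_nonneg.2 he1)
  have a4 := mul_nonneg hγ0 (sub_nonneg.2 hl1)
  have a5 := mul_nonneg hγ0 (by linarith : 0 ≤ l + 1 / 10)
  have a6 := mul_nonneg hγ0 he0
  have a7 := mul_nonneg hγ0 (sub_nonneg.2 he1)
  have b4 := mul_nonneg (sub_nonneg.2 hγ1) (sub_nonneg.2 hl1)
  have b5 := mul_nonneg (sub_nonneg.2 hγ1) (by linarith : 0 ≤ l + 1 / 10)
  have b6 := mul_nonneg (sub_nonneg.2 hγ1) he0
  have b7 := mul_nonneg (sub_nonneg.2 hγ1) (sub_nonneg.2 he1)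
  have c4 := mul_nonneg (sub_nonneg.2 hl1) he0
  have c5 := mul_nonneg (sub_nonneg.2 hl1) (sub_nonneg.2 he1)
  have c6 := mul_nonneg (by linarith : 0 ≤ l + 1 / 10) he0
  have c7 := mul_nonneg (by linarith : 0 ≤ l + 1 / 10) (sub_nonneg.2 he1)
  nlinarith

theorem vplus_C (t h θ γ e C : ℝ) (ht0 : 0 ≤ t) (ht1 : t ≤ 1) (hh : h = 1 - t) (hγ0 : 0 ≤ γ)
    (hγ1 : γ ≤ 5 / 4) (hθ0 : 0 < θ) (hθ : t ≤ θ) (hτ0 : -(h / 10) ≤ t * (θ - 1))
    (hτ1 : t * (θ - 1) ≤ h) (he0 : 0 ≤ e) (he1 : e ≤ 1) (he2 : e * h ≤ h * θ)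
    (hC : C = t * (θ - 1) - h * γ * t) :
    (C - e * h) ^ 2 ≤ h * θ * (8 / 5 * (1 + 3 * t)) := by
  have hh0 : 0 ≤ h := by linarith
  have hh1 : h ≤ 1 := by linarith
  have hγt : 0 ≤ γ * t := mul_nonneg hγ0 ht0
  have hγt1 : γ * t ≤ 5 / 4 * t := mul_le_mul_of_nonneg_right hγ1 ht0
  have hC1 : -(h * (1 / 10 + γ * t)) ≤ C := by rw [hC]; nlinarith
  have hs0 : 0 ≤ h * (1 / 10 + γ * t) := mul_nonneg hh0 (by linarith)
  have heh0 : 0 ≤ e * h := mul_nonneg he0 hh0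
  have heh1 : e * h ≤ 1 * h := mul_le_mul_of_nonneg_right he1 hh0
  rcases le_total 1 θ with hc | hc
  · have hC2 : C ≤ h := by
      have : 0 ≤ h * γ * t := by positivity
      linarith
    have h1 : (C - e * h) ^ 2 ≤ h * (8 / 5 * (1 + 3 * t)) := by
      rcases le_total 0 (C - e * h) with h0 | h0
      · calc (C - e * h) ^ 2 = (C - e * h) * (C - e * h) := sq _
          _ ≤ h * 1 := mul_le_mul (by linarith) (by linarith) h0 hh0
          _ ≤ h * (8 / 5 * (1 + 3 * t)) := mul_le_mul_of_nonneg_left (by linarith) hh0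
      · have h2 : (e * h - C) * (e * h - C) ≤
            (h * (11 / 10 + γ * t)) * (h * (11 / 10 + γ * t)) :=
          mul_le_mul (by linarith) (by linarith) (by linarith) (mul_nonneg hh0 (by linarith))
        have h3 : h * (11 / 10 + γ * t) ≤ h * (11 / 10 + 5 / 4 * t) :=
          mul_le_mul_of_nonneg_left (by linarith) hh0
        have h4 : (h * (11 / 10 + γ * t)) * (11 / 10 + γ * t) ≤
            (h * (11 / 10 + 5 / 4 * t)) * (11 / 10 + 5 / 4 * t) :=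
          mul_le_mul h3 (by linarith) (by linarith) (mul_nonneg hh0 (by linarith))
        have h5 : (h * (11 / 10 + 5 / 4 * t)) * (11 / 10 + 5 / 4 * t) ≤ 8 / 5 * (1 + 3 * t) := by
          rw [hh]
          nlinarith [mul_nonneg ht0 (sub_nonneg.2 ht1), mul_nonneg (mul_nonneg ht0 ht0) ht0,
            mul_nonneg (mul_nonneg ht0 ht0) (sub_nonneg.2 ht1)]
        have h6 : h * ((h * (11 / 10 + γ * t)) * (11 / 10 + γ * t)) ≤ h * (8 / 5 * (1 + 3 * t)) :=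
          mul_le_mul_of_nonneg_left (h4.trans h5) hh0
        nlinarith
    have h7 : 0 ≤ h * (8 / 5 * (1 + 3 * t)) := mul_nonneg hh0 (by linarith)
    have h8 := mul_le_mul_of_nonneg_right hc h7
    linarith
  · have h2 : -(h * θ * (1 + γ)) ≤ C := by
      have e1 : t * (1 - θ) ≤ t * h := mul_le_mul_of_nonneg_left (by linarith) ht0
      have e2 : t * (h * (1 + γ)) ≤ θ * (h * (1 + γ)) :=
        mul_le_mul_of_nonneg_right hθ (mul_nonneg hh0 (by linarith))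
      rw [hC]; nlinarith
    have h3 : C ≤ 0 := by
      have e1 : 0 ≤ h * γ * t := by positivity
      have e2 : t * (θ - 1) ≤ 0 := mul_nonpos_of_nonneg_of_nonpos ht0 (by linarith)
      linarith
    have hθh : 0 ≤ h * θ := by positivity
    have h4 : (-C) * (-C) ≤ (h * (1 / 10 + γ * t)) * (h * θ * (1 + γ)) :=
      mul_le_mul (by linarith) (by linarith) (by linarith) hs0
    have h5 : (-C) * (e * h) ≤ (h * (1 / 10 + γ * t)) * (h * θ) :=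
      mul_le_mul (by linarith) he2 heh0 hs0
    have h6 : (e * h) * (e * h) ≤ h * (h * θ) :=
      mul_le_mul (by linarith) he2 heh0 hh0
    have h7 : (C - e * h) ^ 2 ≤ (h * θ) * (h * (1 / 10 + γ * t) * (3 + γ) + h) := by
      nlinarith
    have h8 : h * (1 / 10 + γ * t) * (3 + γ) + h ≤ 8 / 5 * (1 + 3 * t) := by
      have g1 : h * (1 / 10 + γ * t) ≤ h * (1 / 10 + 5 / 4 * t) :=
        mul_le_mul_of_nonneg_left (by linarith) hh0
      have g2 : h * (1 / 10 + γ * t) * (3 + γ) ≤ h * (1 / 10 + 5 / 4 * t) * (17 / 4) :=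
        mul_le_mul g1 (by linarith) (by linarith) (mul_nonneg hh0 (by linarith))
      rw [hh] at g2 ⊢
      nlinarith [mul_nonneg ht0 (sub_nonneg.2 ht1)]
    exact h7.trans (mul_le_mul_of_nonneg_left h8 hθh)

/-- the plus form of the V-type certificate is nonnegative -/
theorem vplus (t h D θ γ l : ℝ) (H : VBox t h D θ γ l) (X x ψ : ℝ) :
    0 ≤ D * X ^ 2 + D * t * X * (x + ψ) + (1 + t) * (θ * x ^ 2 + X ^ 2)
      + (2 * (1 + t) + 2 * h * γ + h * (1 - l)) * X * ψ + t * (θ - 1 - γ * h) * x * ψ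
      + (2 + 3 * h * γ + h * (1 - l)) * ψ ^ 2 := by
  obtain ⟨ht0, ht1, hh, hD, hD1, hD2, hθ0, hθ, hτ0, hτ1, hγ0, hγ1, hl0, hl1⟩ := H
  have hh0 : 0 ≤ h := by linarith
  have hh1 : h ≤ 1 := by linarith
  have hE0 : 0 ≤ t * D := mul_nonneg ht0 (by linarith)
  obtain ⟨e, he0, he1, heE⟩ : ∃ e : ℝ, 0 ≤ e ∧ e ≤ 1 ∧ t * D = e * h := by
    rcases eq_or_lt_of_le hh0 with h0 | h0
    · refine ⟨0, le_rfl, zero_le_one, ?_⟩
      rw [zero_mul]
      linarith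
    · refine ⟨t * D / h, div_nonneg hE0 hh0, (div_le_one h0).2 hD1, ?_⟩
      field_simp
  rw [heE] at hD1 hD2 hE0
  have hw := vplus_w h γ l e hh1 hγ0 hγ1 hl0 hl1 he0 he1
  have hC2 := vplus_C t h θ γ e (t * (θ - 1) - h * γ * t) ht0 ht1 hh hγ0 hγ1 hθ0 hθ hτ0 hτ1
    he0 he1 hD2 rfl
  set Y := X + ψ with hY
  have hX : X = Y - ψ := by rw [hY]; ring
  -- first piece
  have p1 : 0 ≤ (1 / 2) * Y ^ 2 + (e * h) * (Y * x) + (h * (h * θ) / 2) * x ^ 2 := by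
    refine quad2 _ _ _ _ _ (by norm_num) (by positivity) ?_
    have := mul_le_mul (show e * h ≤ h by linarith) hD2 hE0 hh0
    nlinarith
  -- second piece
  have p2 : 0 ≤ (3 / 2) * Y ^ 2 + (h * (2 * γ - 1 - l + e)) * (Y * ψ) +
      (h * (h * (2 * γ - 1 - l + e) ^ 2 / 6)) * ψ ^ 2 := by
    refine quad2 _ _ _ _ _ (by norm_num) (by positivity) ?_
    nlinarith
  -- third piece
  have hW : h * (4 / 5) ≤ h * (2 + γ - e - h * (2 * γ - 1 - l + e) ^ 2 / 6) :=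
    mul_le_mul_of_nonneg_left hw hh0
  have hA : θ * (1 / 2 * (1 + 3 * t)) ≤ (1 + t) * θ - h * (h * θ) / 2 := by
    have : 1 / 2 * (1 + 3 * t) ≤ 1 + t - h * h / 2 := by
      rw [hh]; nlinarith [mul_nonneg ht0 (sub_nonneg.2 ht1)]
    have := mul_le_mul_of_nonneg_left this hθ0.le
    nlinarith
  have hA0 : 0 ≤ θ * (1 / 2 * (1 + 3 * t)) := mul_nonneg hθ0.le (by linarith)
  have p3 : 0 ≤ ((1 + t) * θ - h * (h * θ) / 2) * x ^ 2 +
      (t * (θ - 1) - h * γ * t - e * h) * (x * ψ) +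
      (h * (2 + γ - e - h * (2 * γ - 1 - l + e) ^ 2 / 6)) * ψ ^ 2 := by
    refine quad2 _ _ _ _ _ (hA0.trans hA) ((mul_nonneg hh0 (by norm_num)).trans hW) ?_
    have g1 := mul_le_mul hA hW (mul_nonneg hh0 (by norm_num)) (hA0.trans hA)
    nlinarith
  have p4 : 0 ≤ (D - h) * (Y - ψ) ^ 2 := mul_nonneg (by linarith) (sq_nonneg _)
  have e0 : D * X ^ 2 + D * t * X * (x + ψ) + (1 + t) * (θ * x ^ 2 + X ^ 2)
      + (2 * (1 + t) + 2 * h * γ + h * (1 - l)) * X * ψ + t * (θ - 1 - γ * h) * x * ψ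
      + (2 + 3 * h * γ + h * (1 - l)) * ψ ^ 2 =
      ((1 / 2) * Y ^ 2 + (e * h) * (Y * x) + (h * (h * θ) / 2) * x ^ 2) +
      ((3 / 2) * Y ^ 2 + (h * (2 * γ - 1 - l + e)) * (Y * ψ) +
        (h * (h * (2 * γ - 1 - l + e) ^ 2 / 6)) * ψ ^ 2) +
      (((1 + t) * θ - h * (h * θ) / 2) * x ^ 2 +
        (t * (θ - 1) - h * γ * t - e * h) * (x * ψ) +
        (h * (2 + γ - e - h * (2 * γ - 1 - l + e) ^ 2 / 6)) * ψ ^ 2) +
      (D - h) * (Y - ψ) ^ 2 := by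
    have e1 : D * t * X * (x + ψ) = (e * h) * X * (x + ψ) := by
      rw [← heE]; ring
    rw [e1, hX, hh]
    ring
  rw [e0]
  linarith

end Helper85.IE
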